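import Mathlib

/-!
# Connected partitions of graphs: basic tools

Definitions used for the hand-ins on CPET trees, and the tools to build connected partitions of
graphs on `Fin n` block by block.
-/

namespace Pool.Agent.Q258.ConnPart

open SimpleGraph

/-- `T` has a connected partition of type `M`: a partition of the vertex set into parts inducing
connected subgraphs whose multiset of sizes is `M`. -/
def HasConnPartition {V : Type} [Fintype V] [DecidableEq V] (T : SimpleGraph V)
    (M : Multiset ℕ) : Prop :=
  ∃ P : Finpartition (Finset.univ : Finset V),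
    (∀ B ∈ P.parts, (T.induce (B : Set V)).Connected) ∧ P.parts.val.map Finset.card = M

/-- The maximum degree of `T` is `k`. -/
def IsMaxDegree {V : Type} (T : SimpleGraph V) (k : ℕ) : Prop :=
  (∀ v, (T.neighborSet v).ncard ≤ k) ∧ ∃ v, (T.neighborSet v).ncard = k

/-- A CPET tree: a tree of maximum degree `4` that has a connected partition of every type, the
types being the multisets of positive integers with sum the number of vertices. -/
def IsCPET {V : Type} [Fintype V] [DecidableEq V] (T : SimpleGraph V) : Prop :=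
  T.IsTree ∧ IsMaxDegree T 4 ∧
    ∀ M : Multiset ℕ, (∀ p ∈ M, 1 ≤ p) → M.sum = Fintype.card V → HasConnPartition T M

/-- The vertex `v` is a leaf. -/
def IsLeaf {V : Type} (T : SimpleGraph V) (v : V) : Prop := (T.neighborSet v).ncard = 1

section tree

/-- A graph on a linear order in which every vertex has at most one smaller neighbour is
acyclic. -/
theorem isAcyclic_of_parent {V : Type} [LinearOrder V] (T : SimpleGraph V)
    (h : ∀ v w w' : V, w < v → w' < v → T.Adj v w → T.Adj v w' → w = w') : T.IsAcyclic := by
  classical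
  intro x c hc
  obtain ⟨v, hv, hmax⟩ := Finset.exists_max_image c.support.toFinset id
    ⟨x, by rw [List.mem_toFinset]; exact c.start_mem_support⟩
  rw [List.mem_toFinset] at hv
  have h2 := hc.ncard_neighborSet_toSubgraph_eq_two hv
  obtain ⟨w, w', hww, hset⟩ := Set.ncard_eq_two.1 h2
  have key : ∀ y, y ∈ c.toSubgraph.neighborSet v → y < v ∧ T.Adj v y := by
    intro y hy
    have hadj : T.Adj v y := c.toSubgraph.adj_sub hy
    have hys : y ∈ c.support := by
      have := c.toSubgraph.edge_vert (c.toSubgraph.adj_symm hy)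
      rwa [Walk.mem_verts_toSubgraph] at this
    have hle := hmax y (by rw [List.mem_toFinset]; exact hys)
    exact ⟨lt_of_le_of_ne hle hadj.ne', hadj⟩
  have k1 := key w (by rw [hset]; simp)
  have k2 := key w' (by rw [hset]; simp)
  exact hww (h v w w' k1.1 k2.1 k1.2 k2.2)

end tree

section region

variable {n : ℕ} (T : SimpleGraph (Fin n))

/-- A set of vertices is connected if all its vertices except one have a smaller neighbour in
the set. -/
theorem connected_of_parent (B : Finset (Fin n)) (r : Fin n) (hr : r ∈ B)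
    (h : ∀ v ∈ B, v ≠ r → ∃ w ∈ B, w < v ∧ T.Adj v w) :
    (T.induce (B : Set (Fin n))).Connected := by
  have : Nonempty (B : Set (Fin n)) := ⟨⟨r, hr⟩⟩
  have key : ∀ (k : ℕ) (v : Fin n) (hv : v ∈ B), v.val = k →
      (T.induce (B : Set (Fin n))).Reachable ⟨v, hv⟩ ⟨r, hr⟩ := by
    intro k
    induction k using Nat.strong_induction_on with
    | _ k ih =>
      intro v hv hvk
      by_cases hvr : v = r
      · subst hvr
        exact Reachable.refl _
      · obtain ⟨w, hw, hwv, hadj⟩ := h v hv hvr
        have h1 := ih w.val (by rw [← hvk]; exact hwv) w hw rfl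
        exact (Adj.reachable (show (T.induce (B : Set (Fin n))).Adj ⟨v, hv⟩ ⟨w, hw⟩
          from hadj)).trans h1
  exact ⟨fun u v => (key _ u.1 u.2 rfl).trans (key _ v.1 v.2 rfl).symm⟩

/-- Connected partitions of a set of vertices. -/
def CP (U : Finset (Fin n)) (M : Multiset ℕ) : Prop :=
  ∃ P : Finpartition U, (∀ B ∈ P.parts, (T.induce (B : Set (Fin n))).Connected) ∧
    P.parts.val.map Finset.card = M

variable {T}

theorem ne_bot_of_connected {B : Finset (Fin n)}
    (hB : (T.induce (B : Set (Fin n))).Connected) : B ≠ ⊥ := by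
  obtain ⟨x⟩ := hB.nonempty
  rw [Finset.bot_eq_empty]
  exact Finset.nonempty_iff_ne_empty.1 ⟨x.1, x.2⟩

theorem CP.single {B : Finset (Fin n)} (hB : (T.induce (B : Set (Fin n))).Connected) :
    CP T B {B.card} := by
  refine ⟨Finpartition.indiscrete (ne_bot_of_connected hB), ?_, ?_⟩
  · intro C hC
    rw [Finpartition.indiscrete_parts, Finset.mem_singleton] at hC
    rw [hC]
    exact hB
  · rw [Finpartition.indiscrete_parts]
    simp

theorem CP.add {U B : Finset (Fin n)} {M : Multiset ℕ} (hd : Disjoint U B)
    (hB : (T.induce (B : Set (Fin n))).Connected) (h : CP T U M) :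
    CP T (U ∪ B) (B.card ::ₘ M) := by
  obtain ⟨P, hP, hM⟩ := h
  refine ⟨P.extend (ne_bot_of_connected hB) hd rfl, ?_, ?_⟩
  · intro C hC
    rw [Finpartition.extend_parts, Finset.mem_insert] at hC
    rcases hC with rfl | hC
    · exact hB
    · exact hP C hC
  · rw [Finpartition.extend_parts, Finset.insert_val_of_notMem]
    · rw [Multiset.map_cons, hM]
    · intro hmem
      have h1 : B ≤ U := P.le hmem
      have h2 : B ≤ ⊥ := hd h1 le_rfl
      exact ne_bot_of_connected hB (le_bot_iff.1 h2)

/-- The vertices `lo, …, hi - 1`. -/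
def I (lo hi : ℕ) : Finset (Fin n) := Finset.univ.filter (fun v => lo ≤ v.val ∧ v.val < hi)

theorem mem_I {lo hi : ℕ} {v : Fin n} : v ∈ (I lo hi : Finset (Fin n)) ↔
    lo ≤ v.val ∧ v.val < hi := by
  simp [I]

theorem card_I {lo hi : ℕ} (h : hi ≤ n) : (I lo hi : Finset (Fin n)).card = hi - lo := by
  rw [← Nat.card_Ico]
  apply Finset.card_bij (fun v _ => v.val)
  · intro v hv
    rw [Finset.mem_Ico]
    exact mem_I.1 hv
  · intro v _ w _ hvw
    exact Fin.ext hvw
  · intro b hb
    rw [Finset.mem_Ico] at hb
    exact ⟨⟨b, by omega⟩, mem_I.2 hb, rfl⟩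

theorem connected_I {lo hi : ℕ} (hlo : lo < hi) (hhi : hi ≤ n)
    (hadj : ∀ v w : Fin n, lo ≤ v.val → v.val + 1 = w.val → w.val < hi → T.Adj v w) :
    (T.induce ((I lo hi : Finset (Fin n)) : Set (Fin n))).Connected := by
  refine connected_of_parent T _ ⟨lo, by omega⟩ (mem_I.2 ⟨le_rfl, hlo⟩) ?_
  intro v hv hne
  rw [mem_I] at hv
  have h1 : v.val ≠ lo := fun h => hne (Fin.ext h)
  have h2 : v.val - 1 < n := by omega
  refine ⟨⟨v.val - 1, h2⟩, mem_I.2 ⟨?_, ?_⟩, ?_, ?_⟩
  · show lo ≤ v.val - 1
    omega
  · show v.val - 1 < hi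
    omega
  · show v.val - 1 < v.val
    omega
  · exact (hadj ⟨v.val - 1, h2⟩ v (by show lo ≤ v.val - 1; omega)
      (by show v.val - 1 + 1 = v.val; omega) hv.2).symm

/-- Cutting blocks off the left end of a path. -/
theorem CP.left {hi : ℕ} (hhi : hi ≤ n) {Z : Finset (Fin n)} {M : Multiset ℕ} (L : Multiset ℕ) :
    ∀ {lo : ℕ}, (∀ p ∈ L, 1 ≤ p) →
    (∀ v w : Fin n, lo ≤ v.val → v.val + 1 = w.val → w.val < hi → T.Adj v w) →
    lo + L.sum ≤ hi → Disjoint (I lo hi) Z → CP T (I (lo + L.sum) hi ∪ Z) M →
    CP T (I lo hi ∪ Z) (L + M) := by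
  induction L using Multiset.induction_on with
  | empty =>
    intro lo _ _ _ _ h
    simpa using h
  | cons p L ih =>
    intro lo hL hadj hsum hZ h
    have hp : 1 ≤ p := hL p (Multiset.mem_cons_self p L)
    rw [Multiset.sum_cons] at hsum h
    have hsub : (I (lo + p) hi : Finset (Fin n)) ⊆ I lo hi := by
      intro v hv
      rw [mem_I] at hv ⊢
      omega
    have hsub2 : (I lo (lo + p) : Finset (Fin n)) ⊆ I lo hi := by
      intro v hv
      rw [mem_I] at hv ⊢
      omega
    have h1 : CP T (I (lo + p) hi ∪ Z) (L + M) := by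
      apply ih (fun q hq => hL q (Multiset.mem_cons_of_mem hq))
      · intro v w hv hvw hw
        exact hadj v w (by omega) hvw hw
      · omega
      · exact Finset.disjoint_of_subset_left hsub hZ
      · rw [← Nat.add_assoc] at h
        exact h
    have h2 := CP.add (B := I lo (lo + p)) ?_ ?_ h1
    · rw [card_I (by omega)] at h2
      have e1 : (I (lo + p) hi ∪ Z) ∪ I lo (lo + p) = (I lo hi ∪ Z : Finset (Fin n)) := by
        ext v
        simp only [Finset.mem_union, mem_I]
        constructor
        · rintro ((h | h) | h)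
          · exact Or.inl ⟨by omega, h.2⟩
          · exact Or.inr h
          · exact Or.inl ⟨h.1, by omega⟩
        · rintro (h | h)
          · by_cases hv : v.val < lo + p
            · exact Or.inr ⟨h.1, hv⟩
            · exact Or.inl (Or.inl ⟨by omega, h.2⟩)
          · exact Or.inl (Or.inr h)
      rw [e1] at h2
      rw [Multiset.cons_add]
      have e2 : lo + p - lo = p := by omega
      rwa [e2] at h2
    · rw [Finset.disjoint_union_left]
      refine ⟨?_, (Finset.disjoint_of_subset_left hsub2 hZ).symm⟩
      rw [Finset.disjoint_left]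
      intro v hv hv'
      rw [mem_I] at hv hv'
      omega
    · exact connected_I (by omega) (by omega) (fun v w hv hvw hw => hadj v w hv hvw (by omega))

/-- Cutting blocks off the right end of a path. -/
theorem CP.right {lo : ℕ} {Z : Finset (Fin n)} {M : Multiset ℕ} (L : Multiset ℕ) :
    ∀ {hi : ℕ}, hi ≤ n → (∀ p ∈ L, 1 ≤ p) →
    (∀ v w : Fin n, lo ≤ v.val → v.val + 1 = w.val → w.val < hi → T.Adj v w) →
    lo + L.sum ≤ hi → Disjoint (I lo hi) Z → CP T (I lo (hi - L.sum) ∪ Z) M →
    CP T (I lo hi ∪ Z) (L + M) := by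
  induction L using Multiset.induction_on with
  | empty =>
    intro hi _ _ _ _ _ h
    simpa using h
  | cons p L ih =>
    intro hi hhi hL hadj hsum hZ h
    have hp : 1 ≤ p := hL p (Multiset.mem_cons_self p L)
    rw [Multiset.sum_cons] at hsum h
    have hsub : (I lo (hi - p) : Finset (Fin n)) ⊆ I lo hi := by
      intro v hv
      rw [mem_I] at hv ⊢
      omega
    have hsub2 : (I (hi - p) hi : Finset (Fin n)) ⊆ I lo hi := by
      intro v hv
      rw [mem_I] at hv ⊢
      omega
    have h1 : CP T (I lo (hi - p) ∪ Z) (L + M) := by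
      apply ih (by omega) (fun q hq => hL q (Multiset.mem_cons_of_mem hq))
      · intro v w hv hvw hw
        exact hadj v w hv hvw (by omega)
      · omega
      · exact Finset.disjoint_of_subset_left hsub hZ
      · rw [Nat.sub_sub]
        exact h
    have h2 := CP.add (B := I (hi - p) hi) ?_ ?_ h1
    · rw [card_I hhi] at h2
      have e1 : (I lo (hi - p) ∪ Z) ∪ I (hi - p) hi = (I lo hi ∪ Z : Finset (Fin n)) := by
        ext v
        simp only [Finset.mem_union, mem_I]
        constructor
        · rintro ((h | h) | h)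
          · exact Or.inl ⟨h.1, by omega⟩
          · exact Or.inr h
          · exact Or.inl ⟨by omega, h.2⟩
        · rintro (h | h)
          · by_cases hv : v.val < hi - p
            · exact Or.inl (Or.inl ⟨h.1, hv⟩)
            · exact Or.inr ⟨by omega, h.2⟩
          · exact Or.inl (Or.inr h)
      rw [e1] at h2
      rw [Multiset.cons_add]
      have e2 : hi - (hi - p) = p := by omega
      rwa [e2] at h2
    · rw [Finset.disjoint_union_left]
      refine ⟨?_, (Finset.disjoint_of_subset_left hsub2 hZ).symm⟩
      rw [Finset.disjoint_left]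
      intro v hv hv'
      rw [mem_I] at hv hv'
      omega
    · exact connected_I (by omega) hhi (fun v w hv hvw hw => hadj v w (by omega) hvw hw)

end region

section packing

/-- Placing the parts of `M` into bins with capacities `c` leaves the capacities `c'`. -/
inductive Pk : (Fin 7 → ℕ) → Multiset ℕ → (Fin 7 → ℕ) → Prop
  | nil (c : Fin 7 → ℕ) : Pk c 0 c
  | place (c : Fin 7 → ℕ) (i : Fin 7) (p : ℕ) (M : Multiset ℕ) (c' : Fin 7 → ℕ) (h : p ≤ c i) :
      Pk (Function.update c i (c i - p)) M c' → Pk c (p ::ₘ M) c'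

theorem Pk.split {c : Fin 7 → ℕ} {M : Multiset ℕ} {c' : Fin 7 → ℕ} (h : Pk c M c') :
    ∃ L : Fin 7 → Multiset ℕ, ∑ i, L i = M ∧ ∀ i, (L i).sum + c' i = c i := by
  induction h with
  | nil c => exact ⟨fun _ => 0, by simp, by simp⟩
  | place c i p M c' h _ ih =>
    obtain ⟨L, hL, hc⟩ := ih
    refine ⟨fun j => L j + (if j = i then {p} else 0), ?_, ?_⟩
    · rw [Finset.sum_add_distrib, hL]
      simp only [Finset.sum_ite_eq', Finset.mem_univ, if_true]
      rw [add_comm, Multiset.singleton_add]
    · intro j
      have := hc j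
      by_cases hj : j = i
      · subst hj
        simp only [Function.update_self] at this
        simp only [if_true, Multiset.sum_add, Multiset.sum_singleton]
        omega
      · simp only [Function.update_of_ne hj] at this
        simp only [if_neg hj, add_zero]
        exact this

end packing

end Pool.Agent.Q258.ConnPart
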