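import Pool.Agent.Q258.ConnPart

/-!
# A verified search for packings

States are coded by natural numbers in base 64: six digits for the remaining capacities of the
legs, one digit for the remaining capacity of the middle path, and one digit for the kind
(`0`: one hub block, `1`: hub blocks `m1, m2`, `2`: hub blocks `m2, m1`).
-/

namespace Pool.Agent.Q258.ConnPart

/-- The minimum. -/
def mn (a b : ℕ) : ℕ := bif Nat.ble a b then a else b

theorem mn_eq (a b : ℕ) : mn a b = min a b := by
  unfold mn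
  by_cases h : a ≤ b
  · have h1 : Nat.ble a b = true := by rw [Nat.ble_eq]; exact h
    rw [h1, min_eq_left h]
    rfl
  · have h1 : Nat.ble a b = false := by
      rw [← Bool.not_eq_true, Nat.ble_eq]
      exact h
    rw [h1, min_eq_right (by omega)]
    rfl

/-- The prune test for two hub blocks of sizes `s1`, `s2`. -/
def pr (m s s1 s2 : ℕ) : Bool :=
  bif Nat.ble (s % 64 + s / 64 % 64 + s / 4096 % 64 + 1) s1 then
    bif Nat.ble (s / 262144 % 64 + s / 16777216 % 64 + s / 1073741824 % 64 + 1) s2 then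
      true
    else
      Nat.ble (mn (s / 262144 % 64) (m - 1) + mn (s / 16777216 % 64) (m - 1) +
        mn (s / 1073741824 % 64) (m - 1) + 1) s2 &&
      Nat.ble s1 (s / 68719476736 % 64 + (s % 64 + s / 64 % 64 + s / 4096 % 64 + 1))
  else
    bif Nat.ble (s / 262144 % 64 + s / 16777216 % 64 + s / 1073741824 % 64 + 1) s2 then
      Nat.ble (mn (s % 64) (m - 1) + mn (s / 64 % 64) (m - 1) + mn (s / 4096 % 64) (m - 1) + 1)
        s1 &&
      Nat.ble s2 (s / 68719476736 % 64 +
        (s / 262144 % 64 + s / 16777216 % 64 + s / 1073741824 % 64 + 1))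
    else
      Nat.ble (mn (s / 262144 % 64) (m - 1) + mn (s / 16777216 % 64) (m - 1) +
        mn (s / 1073741824 % 64) (m - 1) + 1) s2 &&
      Nat.ble (mn (s % 64) (m - 1) + mn (s / 64 % 64) (m - 1) + mn (s / 4096 % 64) (m - 1) + 1)
        s1 && Nat.ble m (s / 68719476736 % 64 + 1)

/-- The prune test. -/
def prune (m1 m2 m R s : ℕ) : Bool :=
  bif Nat.ble (s / 4398046511104) 0 then
    Nat.ble (R + (mn (s % 64) (m - 1) + mn (s / 64 % 64) (m - 1) + mn (s / 4096 % 64) (m - 1) +
      mn (s / 262144 % 64) (m - 1) + mn (s / 16777216 % 64) (m - 1) +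
      mn (s / 1073741824 % 64) (m - 1)))
      (s % 64 + s / 64 % 64 + s / 4096 % 64 + s / 262144 % 64 + s / 16777216 % 64 +
        s / 1073741824 % 64)
  else
    bif Nat.ble (s / 4398046511104) 1 then pr m s m1 m2 else pr m s m2 m1

/-- A necessary condition, used to drop useless states. -/
def al (R s s1 s2 : ℕ) : Bool :=
  Nat.ble ((s % 64 + s / 64 % 64 + s / 4096 % 64 + 1 - s1) +
    (s / 262144 % 64 + s / 16777216 % 64 + s / 1073741824 % 64 + 1 - s2)) R

/-- A necessary condition, used to drop useless states. -/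
def alive (m1 m2 R s : ℕ) : Bool :=
  bif Nat.ble (s / 4398046511104) 0 then
    Nat.ble R (s % 64 + s / 64 % 64 + s / 4096 % 64 + s / 262144 % 64 + s / 16777216 % 64 +
        s / 1073741824 % 64)
  else
    bif Nat.ble (s / 4398046511104) 1 then al R s m1 m2 else al R s m2 m1

/-- Insert into a sorted list without repetition. -/
def ins (s : ℕ) : List ℕ → List ℕ
  | [] => [s]
  | t :: l => bif Nat.beq s t then t :: l else bif Nat.ble s t then s :: t :: l else t :: ins s l

/-- Insert if alive. -/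
def insA (m1 m2 R s : ℕ) (l : List ℕ) : List ℕ := bif alive m1 m2 R s then ins s l else l

/-- Insert the result of a move if it is possible. -/
def insM (m1 m2 R m c s : ℕ) (l : List ℕ) : List ℕ := bif Nat.ble m c then insA m1 m2 R s l else l

/-- All moves placing a part `m` in the state `s`. -/
def moves (m1 m2 m R s : ℕ) (l : List ℕ) : List ℕ :=
  insM m1 m2 R m (s / 68719476736 % 64) (s - m * 68719476736)
  (insM m1 m2 R m (s / 1073741824 % 64) (s - m * 1073741824)
  (insM m1 m2 R m (s / 16777216 % 64) (s - m * 16777216)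
  (insM m1 m2 R m (s / 262144 % 64) (s - m * 262144)
  (insM m1 m2 R m (s / 4096 % 64) (s - m * 4096)
  (insM m1 m2 R m (s / 64 % 64) (s - m * 64)
  (insM m1 m2 R m (s % 64) (s - m) l))))))

/-- The search. -/
def good (m1 m2 B : ℕ) : ℕ → ℕ → ℕ → List ℕ → Bool
  | 0, _, _, _ => false
  | fuel + 1, m, R, S =>
    bif S.any (prune m1 m2 (bif Nat.beq R 0 then 1 else m) R) then true
    else bif Nat.beq R 0 then false
    else bif Nat.beq m 0 then true
    else good m1 m2 B fuel (m - 1) R S &&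
      (bif Nat.ble m R then
        good m1 m2 B fuel m (R - m) ((S.foldr (fun s l => moves m1 m2 m (R - m) s l) []).take B)
      else true)

/-- The code of a state. -/
def enc (a b c d e f k g : ℕ) : ℕ :=
  a + 64 * b + 4096 * c + 262144 * d + 16777216 * e + 1073741824 * f + 68719476736 * k +
    4398046511104 * g

/-- The capacities coded by a state. -/
def dc (s : ℕ) : Fin 7 → ℕ :=
  ![s % 64, s / 64 % 64, s / 4096 % 64, s / 262144 % 64, s / 16777216 % 64,
    s / 1073741824 % 64, s / 68719476736 % 64]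

/-- The kind of a state. -/
def kd (s : ℕ) : ℕ := s / 4398046511104

/-- The weight of the digits. -/
def wt : Fin 7 → ℕ := ![1, 64, 4096, 262144, 16777216, 1073741824, 68719476736]

theorem dc_eq (s : ℕ) (i : Fin 7) : dc s i = s / 64 ^ (i : ℕ) % 64 := by
  fin_cases i <;> simp [dc]

theorem wt_eq (i : Fin 7) : wt i = 64 ^ (i : ℕ) := by
  fin_cases i <;> simp [wt]

theorem div_pow_move (s m i : ℕ) (h : m ≤ s / 64 ^ i % 64) (j : ℕ) (hj : i < j) :
    (s - m * 64 ^ i) / 64 ^ j = s / 64 ^ j := by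
  obtain ⟨t, rfl⟩ : ∃ t, j = i + (1 + t) := ⟨j - i - 1, by omega⟩
  rw [pow_add, pow_add, ← Nat.div_div_eq_div_mul, ← Nat.div_div_eq_div_mul,
    ← Nat.div_div_eq_div_mul (s) , ← Nat.div_div_eq_div_mul (s / 64 ^ i)]
  congr 1
  have h1 : 64 ^ i * m ≤ s := by
    calc 64 ^ i * m ≤ 64 ^ i * (s / 64 ^ i) := Nat.mul_le_mul_left _ (h.trans (Nat.mod_le _ _))
      _ ≤ s := Nat.mul_div_le s _
  rw [Nat.mul_comm m, Nat.sub_mul_div, pow_one]
  generalize s / 64 ^ i = x at h
  omega

theorem digit_move (s m i : ℕ) (h : m ≤ s / 64 ^ i % 64) (j : ℕ) :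
    (s - m * 64 ^ i) / 64 ^ j % 64 = if j = i then s / 64 ^ i % 64 - m else s / 64 ^ j % 64 := by
  have h1 : 64 ^ i * m ≤ s := by
    calc 64 ^ i * m ≤ 64 ^ i * (s / 64 ^ i) := Nat.mul_le_mul_left _ (h.trans (Nat.mod_le _ _))
      _ ≤ s := Nat.mul_div_le s _
  rcases lt_trichotomy j i with hj | hj | hj
  · rw [if_neg (by omega)]
    obtain ⟨t, rfl⟩ : ∃ t, i = j + (1 + t) := ⟨i - j - 1, by omega⟩
    have h2 : s = (s - m * 64 ^ (j + (1 + t))) + 64 ^ j * (64 * (64 ^ t * m)) := by
      have : 64 ^ j * (64 * (64 ^ t * m)) = 64 ^ (j + (1 + t)) * m := by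
        rw [pow_add, pow_add]
        ring
      rw [this, Nat.mul_comm m]
      omega
    conv_rhs => rw [h2]
    rw [Nat.add_mul_div_left _ _ (by positivity)]
    omega
  · subst hj
    rw [if_pos rfl, Nat.mul_comm m, Nat.sub_mul_div]
    generalize s / 64 ^ j = x at h
    omega
  · rw [if_neg (by omega), div_pow_move s m i h j hj]

theorem dc_move (s m : ℕ) (i : Fin 7) (h : m ≤ dc s i) :
    dc (s - m * wt i) = Function.update (dc s) i (dc s i - m) ∧ kd (s - m * wt i) = kd s := by
  rw [dc_eq] at h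
  constructor
  · funext j
    rw [dc_eq, wt_eq, digit_move s m i h j]
    by_cases hj : j = i
    · subst hj
      rw [if_pos rfl, Function.update_self, dc_eq]
    · rw [if_neg (fun h' => hj (Fin.ext h')), Function.update_of_ne hj, dc_eq]
  · have := div_pow_move s m i h 7 i.2
    rw [← wt_eq] at this
    simpa [kd] using this

/-- Remaining capacity of the legs at the first hub. -/
def LU (c : Fin 7 → ℕ) : ℕ := c 0 + c 1 + c 2

/-- Remaining capacity of the legs at the second hub. -/
def LW (c : Fin 7 → ℕ) : ℕ := c 3 + c 4 + c 5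

/-- Bound for the waste. -/
def WU (m : ℕ) (c : Fin 7 → ℕ) : ℕ := min (c 0) (m - 1) + min (c 1) (m - 1) + min (c 2) (m - 1)

/-- Bound for the waste. -/
def WW (m : ℕ) (c : Fin 7 → ℕ) : ℕ := min (c 3) (m - 1) + min (c 4) (m - 1) + min (c 5) (m - 1)

theorem placeU {m p : ℕ} (hp : p ≤ m) (c : Fin 7 → ℕ) (h : WU m c < LU c) :
    ∃ i, p ≤ c i ∧ LU (Function.update c i (c i - p)) + p = LU c ∧
      WU m (Function.update c i (c i - p)) ≤ WU m c ∧
      LW (Function.update c i (c i - p)) = LW c ∧ WW m (Function.update c i (c i - p)) = WW m c ∧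
      (Function.update c i (c i - p)) 6 = c 6 := by
  unfold LU WU at h
  by_cases h0 : m ≤ c 0
  · refine ⟨0, by omega, ?_⟩
    simp [LU, WU, LW, WW, Function.update_apply]
    omega
  · by_cases h1 : m ≤ c 1
    · refine ⟨1, by omega, ?_⟩
      simp [LU, WU, LW, WW, Function.update_apply]
      omega
    · have h2 : m ≤ c 2 := by omega
      refine ⟨2, by omega, ?_⟩
      simp [LU, WU, LW, WW, Function.update_apply]
      omega

theorem placeW {m p : ℕ} (hp : p ≤ m) (c : Fin 7 → ℕ) (h : WW m c < LW c) :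
    ∃ i, p ≤ c i ∧ LW (Function.update c i (c i - p)) + p = LW c ∧
      WW m (Function.update c i (c i - p)) ≤ WW m c ∧
      LU (Function.update c i (c i - p)) = LU c ∧ WU m (Function.update c i (c i - p)) = WU m c ∧
      (Function.update c i (c i - p)) 6 = c 6 := by
  unfold LW WW at h
  by_cases h0 : m ≤ c 3
  · refine ⟨3, by omega, ?_⟩
    simp [LU, WU, LW, WW, Function.update_apply]
    omega
  · by_cases h1 : m ≤ c 4
    · refine ⟨4, by omega, ?_⟩
      simp [LU, WU, LW, WW, Function.update_apply]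
      omega
    · have h2 : m ≤ c 5 := by omega
      refine ⟨5, by omega, ?_⟩
      simp [LU, WU, LW, WW, Function.update_apply]
      omega

theorem placeM {m p : ℕ} (c : Fin 7 → ℕ) :
    LW (Function.update c 6 (c 6 - p)) = LW c ∧ WW m (Function.update c 6 (c 6 - p)) = WW m c ∧
      LU (Function.update c 6 (c 6 - p)) = LU c ∧ WU m (Function.update c 6 (c 6 - p)) = WU m c ∧
      (Function.update c 6 (c 6 - p)) 6 = c 6 - p := by
  simp [LU, WU, LW, WW, Function.update_apply]

/-- First fit. -/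
theorem first_fit (m : ℕ) : ∀ (M : Multiset ℕ) (c : Fin 7 → ℕ), (∀ p ∈ M, 1 ≤ p ∧ p ≤ m) →
    M.sum + (WU m c + WW m c) ≤ LU c + LW c → ∃ c', Pk c M c' := by
  intro M
  induction M using Multiset.induction_on with
  | empty => exact fun c _ _ => ⟨c, Pk.nil c⟩
  | cons p M ih =>
    intro c hM hsum
    obtain ⟨hp1, hpm⟩ := hM p (Multiset.mem_cons_self p M)
    have hM' : ∀ q ∈ M, 1 ≤ q ∧ q ≤ m := fun q hq => hM q (Multiset.mem_cons_of_mem hq)
    rw [Multiset.sum_cons] at hsum
    by_cases h : WU m c < LU c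
    · obtain ⟨i, hpi, h1, h2, h3, h4, _⟩ := placeU hpm c h
      obtain ⟨c', hc'⟩ := ih (Function.update c i (c i - p)) hM' (by omega)
      exact ⟨c', Pk.place c i p M c' hpi hc'⟩
    · obtain ⟨i, hpi, h1, h2, h3, h4, _⟩ := placeW hpm c (show WW m c < LW c by omega)
      obtain ⟨c', hc'⟩ := ih (Function.update c i (c i - p)) hM' (by omega)
      exact ⟨c', Pk.place c i p M c' hpi hc'⟩

/-- The prune lemma for two hub blocks. -/
theorem two_fit (m s1 s2 : ℕ) : ∀ (M : Multiset ℕ) (c : Fin 7 → ℕ),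
    (∀ p ∈ M, 1 ≤ p ∧ p ≤ m) →
    LU c + LW c + c 6 + 2 = M.sum + s1 + s2 →
    (LU c + 1 ≤ s1 ∨ WU m c + 1 ≤ s1) →
    (LW c + 1 ≤ s2 ∨ WW m c + 1 ≤ s2) →
    (LU c + 1 ≤ s1 → LW c + 1 ≤ s2 ∨ s1 ≤ c 6 + (LU c + 1)) →
    (LW c + 1 ≤ s2 → LU c + 1 ≤ s1 ∨ s2 ≤ c 6 + (LW c + 1)) →
    (LU c + 1 ≤ s1 ∨ LW c + 1 ≤ s2 ∨ m ≤ c 6 + 1) →
    ∃ c', Pk c M c' ∧ LU c' + 1 ≤ s1 ∧ LW c' + 1 ≤ s2 := by
  intro M
  induction M using Multiset.induction_on with
  | empty =>
    intro c _ htot hu hw h1 h2 h3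
    rw [Multiset.sum_zero] at htot
    exact ⟨c, Pk.nil c, by omega, by omega⟩
  | cons p M ih =>
    intro c hM htot hu hw h1 h2 h3
    obtain ⟨hp1, hpm⟩ := hM p (Multiset.mem_cons_self p M)
    have hM' : ∀ q ∈ M, 1 ≤ q ∧ q ≤ m := fun q hq => hM q (Multiset.mem_cons_of_mem hq)
    rw [Multiset.sum_cons] at htot
    by_cases hU : LU c + 1 ≤ s1
    · by_cases hW : LW c + 1 ≤ s2
      · have hpi : p ≤ c 6 := by omega
        obtain ⟨e1, e2, e3, e4, e5⟩ := placeM (m := m) (p := p) c
        obtain ⟨c', hc', hc2⟩ := ih (Function.update c 6 (c 6 - p)) hM'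
          (by omega) (by omega) (by omega) (by omega) (by omega) (by omega)
        exact ⟨c', Pk.place c 6 p M c' hpi hc', hc2⟩
      · obtain ⟨i, hpi, e1, e2, e3, e4, e5⟩ := placeW hpm c (by omega)
        obtain ⟨c', hc', hc2⟩ := ih (Function.update c i (c i - p)) hM'
          (by omega) (by omega) (by omega) (by omega) (by omega) (by omega)
        exact ⟨c', Pk.place c i p M c' hpi hc', hc2⟩
    · obtain ⟨i, hpi, e1, e2, e3, e4, e5⟩ := placeU hpm c (by omega)
      obtain ⟨c', hc', hc2⟩ := ih (Function.update c i (c i - p)) hM'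
        (by omega) (by omega) (by omega) (by omega) (by omega) (by omega)
      exact ⟨c', Pk.place c i p M c' hpi hc', hc2⟩

/-- The state `s` can be completed by placing `M`. -/
def OKs (m1 m2 s : ℕ) (M : Multiset ℕ) : Prop :=
  ∃ c', Pk (dc s) M c' ∧
    (kd s = 0 ∨ (kd s = 1 ∧ LU c' + 1 ≤ m1 ∧ LW c' + 1 ≤ m2) ∨
      (2 ≤ kd s ∧ LU c' + 1 ≤ m2 ∧ LW c' + 1 ≤ m1))

/-- The total of a state. -/
def Tot (m1 m2 s R : ℕ) : Prop :=
  kd s = 0 ∨ LU (dc s) + LW (dc s) + dc s 6 + 2 = R + m1 + m2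

theorem bif_eq_true (b c d : Bool) : (bif b then c else d) = true ↔
    (b = true ∧ c = true) ∨ (b = false ∧ d = true) := by
  cases b <;> simp

theorem pr_sound {m s s1 s2 : ℕ} (h : pr m s s1 s2 = true) (M : Multiset ℕ)
    (hM : ∀ p ∈ M, 1 ≤ p ∧ p ≤ m) (htot : LU (dc s) + LW (dc s) + dc s 6 + 2 = M.sum + s1 + s2) :
    ∃ c', Pk (dc s) M c' ∧ LU c' + 1 ≤ s1 ∧ LW c' + 1 ≤ s2 := by
  have hLU : LU (dc s) = s % 64 + s / 64 % 64 + s / 4096 % 64 := by simp [LU, dc]
  have hLW : LW (dc s) = s / 262144 % 64 + s / 16777216 % 64 + s / 1073741824 % 64 := by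
    simp [LW, dc]
  have hWU : WU m (dc s) = mn (s % 64) (m - 1) + mn (s / 64 % 64) (m - 1) +
      mn (s / 4096 % 64) (m - 1) := by simp [WU, dc, mn_eq]
  have hWW : WW m (dc s) = mn (s / 262144 % 64) (m - 1) + mn (s / 16777216 % 64) (m - 1) +
      mn (s / 1073741824 % 64) (m - 1) := by simp [WW, dc, mn_eq]
  have h6 : dc s 6 = s / 68719476736 % 64 := by simp [dc]
  unfold pr at h
  rw [← hLU, ← hLW, ← hWU, ← hWW, ← h6] at h
  clear hLU hLW hWU hWW h6
  simp only [bif_eq_true, Bool.and_eq_true, Nat.ble_eq, ← Bool.not_eq_true] at h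
  apply two_fit m s1 s2 M (dc s) hM htot <;> omega

theorem prune_sound {m1 m2 m R s : ℕ} (h : prune m1 m2 m R s = true) (M : Multiset ℕ)
    (hM : ∀ p ∈ M, 1 ≤ p ∧ p ≤ m) (hR : M.sum = R) (htot : Tot m1 m2 s R) : OKs m1 m2 s M := by
  unfold prune at h
  simp only [bif_eq_true] at h
  rcases h with ⟨hk, h⟩ | ⟨hk, ⟨hk2, h⟩ | ⟨hk2, h⟩⟩
  · rw [Nat.ble_eq] at hk h
    have hk0 : kd s = 0 := by unfold kd; omega
    obtain ⟨c', hc'⟩ := first_fit m M (dc s) hM (by
      simp only [mn_eq] at h
      simp only [LU, LW, WU, WW, dc]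
      simp
      omega)
    exact ⟨c', hc', Or.inl hk0⟩
  · rw [← Bool.not_eq_true, Nat.ble_eq] at hk
    rw [Nat.ble_eq] at hk2
    have hk1 : kd s = 1 := by unfold kd; omega
    rcases htot with h0 | htot
    · omega
    · obtain ⟨c', hc', h1, h2⟩ := pr_sound h M hM (by omega)
      exact ⟨c', hc', Or.inr (Or.inl ⟨hk1, h1, h2⟩)⟩
  · rw [← Bool.not_eq_true, Nat.ble_eq] at hk hk2
    have hk1 : 2 ≤ kd s := by unfold kd; omega
    rcases htot with h0 | htot
    · omega
    · obtain ⟨c', hc', h1, h2⟩ := pr_sound h M hM (by omega)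
      exact ⟨c', hc', Or.inr (Or.inr ⟨hk1, h1, h2⟩)⟩

theorem mem_ins {t s : ℕ} {l : List ℕ} (h : t ∈ ins s l) : t = s ∨ t ∈ l := by
  induction l with
  | nil =>
    left
    simpa [ins] using h
  | cons a l ih =>
    unfold ins at h
    cases h1 : Nat.beq s a with
    | true =>
      rw [h1] at h
      exact Or.inr h
    | false =>
      rw [h1] at h
      cases h2 : Nat.ble s a with
      | true =>
        rw [h2] at h
        simpa using h
      | false =>
        rw [h2] at h
        have h3 : t ∈ a :: ins s l := h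
        rw [List.mem_cons] at h3
        rcases h3 with h3 | h3
        · right
          rw [h3]
          exact List.mem_cons_self
        · rcases ih h3 with h4 | h4
          · exact Or.inl h4
          · exact Or.inr (List.mem_cons_of_mem _ h4)

theorem mem_insA {m1 m2 R t s : ℕ} {l : List ℕ} (h : t ∈ insA m1 m2 R s l) : t = s ∨ t ∈ l := by
  unfold insA at h
  cases h1 : alive m1 m2 R s with
  | true =>
    rw [h1] at h
    exact mem_ins h
  | false =>
    rw [h1] at h
    exact Or.inr h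

theorem mem_insM {m1 m2 R m c t s : ℕ} {l : List ℕ} (h : t ∈ insM m1 m2 R m c s l) :
    (m ≤ c ∧ t = s) ∨ t ∈ l := by
  unfold insM at h
  cases h1 : Nat.ble m c with
  | true =>
    rw [h1] at h
    rcases mem_insA h with h2 | h2
    · left
      rw [Nat.ble_eq] at h1
      exact ⟨h1, h2⟩
    · exact Or.inr h2
  | false =>
    rw [h1] at h
    exact Or.inr h

theorem mem_moves {m1 m2 m R s t : ℕ} {l : List ℕ} (h : t ∈ moves m1 m2 m R s l) :
    (∃ i : Fin 7, m ≤ dc s i ∧ t = s - m * wt i) ∨ t ∈ l := by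
  unfold moves at h
  rcases mem_insM h with ⟨h1, h2⟩ | h
  · exact Or.inl ⟨6, by simpa [dc] using h1, by simpa [wt] using h2⟩
  rcases mem_insM h with ⟨h1, h2⟩ | h
  · exact Or.inl ⟨5, by simpa [dc] using h1, by simpa [wt] using h2⟩
  rcases mem_insM h with ⟨h1, h2⟩ | h
  · exact Or.inl ⟨4, by simpa [dc] using h1, by simpa [wt] using h2⟩
  rcases mem_insM h with ⟨h1, h2⟩ | h
  · exact Or.inl ⟨3, by simpa [dc] using h1, by simpa [wt] using h2⟩
  rcases mem_insM h with ⟨h1, h2⟩ | h
  · exact Or.inl ⟨2, by simpa [dc] using h1, by simpa [wt] using h2⟩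
  rcases mem_insM h with ⟨h1, h2⟩ | h
  · exact Or.inl ⟨1, by simpa [dc] using h1, by simpa [wt] using h2⟩
  rcases mem_insM h with ⟨h1, h2⟩ | h
  · exact Or.inl ⟨0, by simpa [dc] using h1, by simpa [wt] using h2⟩
  exact Or.inr h

theorem mem_foldr {m1 m2 m R t : ℕ} (S : List ℕ)
    (h : t ∈ S.foldr (fun s l => moves m1 m2 m R s l) []) :
    ∃ s ∈ S, ∃ i : Fin 7, m ≤ dc s i ∧ t = s - m * wt i := by
  induction S with
  | nil => simp at h
  | cons a S ih =>
    rw [List.foldr_cons] at h
    rcases mem_moves h with h1 | h1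
    · exact ⟨a, List.mem_cons_self, h1⟩
    · obtain ⟨s, hs, h2⟩ := ih h1
      exact ⟨s, List.mem_cons_of_mem _ hs, h2⟩

/-- Placing a part. -/
theorem OKs.move {m1 m2 s m : ℕ} {M : Multiset ℕ} (i : Fin 7) (hi : m ≤ dc s i)
    (h : OKs m1 m2 (s - m * wt i) M) : OKs m1 m2 s (m ::ₘ M) := by
  obtain ⟨c', hc', h2⟩ := h
  obtain ⟨e1, e2⟩ := dc_move s m i hi
  rw [e1] at hc'
  rw [e2] at h2
  exact ⟨c', Pk.place _ i m M c' hi hc', h2⟩

theorem Tot.move {m1 m2 s m R : ℕ} (i : Fin 7) (hi : m ≤ dc s i) (hR : m ≤ R)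
    (h : Tot m1 m2 s R) : Tot m1 m2 (s - m * wt i) (R - m) := by
  obtain ⟨e1, e2⟩ := dc_move s m i hi
  unfold Tot
  rw [e1, e2]
  rcases h with h | h
  · exact Or.inl h
  · right
    have key : LU (Function.update (dc s) i (dc s i - m)) +
        LW (Function.update (dc s) i (dc s i - m)) +
        (Function.update (dc s) i (dc s i - m)) 6 + m = LU (dc s) + LW (dc s) + dc s 6 := by
      generalize dc s = c at *
      fin_cases i <;> simp [LU, LW, Function.update_apply] at hi ⊢ <;> omega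
    omega

/-- Soundness of the search. -/
theorem good_sound (m1 m2 B : ℕ) : ∀ (fuel m R : ℕ) (S : List ℕ),
    good m1 m2 B fuel m R S = true → (∀ s ∈ S, Tot m1 m2 s R) →
    ∀ M : Multiset ℕ, (∀ p ∈ M, 1 ≤ p ∧ p ≤ m) → M.sum = R → ∃ s ∈ S, OKs m1 m2 s M := by
  intro fuel
  induction fuel with
  | zero => intro m R S h; exact absurd h (by simp [good])
  | succ fuel ih =>
    intro m R S h hS M hM hR
    unfold good at h
    rw [bif_eq_true] at h
    rcases h with ⟨h, _⟩ | ⟨_, h⟩
    · rw [List.any_eq_true] at h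
      obtain ⟨s, hs, hp⟩ := h
      refine ⟨s, hs, ?_⟩
      cases hb : Nat.beq R 0 with
      | true =>
        rw [hb] at hp
        rw [Nat.beq_eq] at hb
        have hM0 : M = 0 := by
          apply Multiset.eq_zero_of_forall_notMem
          intro p hpM
          have h1 := (hM p hpM).1
          have h2 := Multiset.single_le_sum (fun x _ => Nat.zero_le x) p hpM
          omega
        refine prune_sound hp M ?_ hR (hS s hs)
        intro p hpM
        rw [hM0] at hpM
        simp at hpM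
      | false =>
        rw [hb] at hp
        exact prune_sound hp M hM hR (hS s hs)
    · rw [bif_eq_true] at h
      rcases h with ⟨_, h⟩ | ⟨hR0, h⟩
      · exact absurd h (by simp)
      · rw [← Bool.not_eq_true, Nat.beq_eq] at hR0
        rw [bif_eq_true] at h
        rcases h with ⟨hm0, _⟩ | ⟨_, h⟩
        · rw [Nat.beq_eq] at hm0
          exfalso
          apply hR0
          rw [← hR]
          have hM0 : M = 0 := by
            apply Multiset.eq_zero_of_forall_notMem
            intro p hpM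
            have := hM p hpM
            omega
          rw [hM0]
          rfl
        · rw [Bool.and_eq_true] at h
          obtain ⟨h1, h2⟩ := h
          by_cases hmM : m ∈ M
          · obtain ⟨M', rfl⟩ := Multiset.exists_cons_of_mem hmM
            rw [Multiset.sum_cons] at hR
            have hmR : m ≤ R := by omega
            have hb : Nat.ble m R = true := by rw [Nat.ble_eq]; exact hmR
            rw [hb] at h2
            obtain ⟨t, ht, hOK⟩ := ih m (R - m) _ h2 (by
              intro t ht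
              obtain ⟨s, hs, i, hi, rfl⟩ := mem_foldr S (List.mem_of_mem_take ht)
              exact Tot.move i hi hmR (hS s hs)) M'
              (fun p hp => hM p (Multiset.mem_cons_of_mem hp)) (by omega)
            obtain ⟨s, hs, i, hi, rfl⟩ := mem_foldr S (List.mem_of_mem_take ht)
            exact ⟨s, hs, hOK.move i hi⟩
          · refine ih (m - 1) R S h1 hS M ?_ hR
            intro p hp
            have h3 := hM p hp
            have h4 : p ≠ m := fun h => hmM (h ▸ hp)
            omega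

/-- A nonempty multiset of natural numbers has a largest element. -/
theorem exists_max_cons {A : Multiset ℕ} (hA : A ≠ 0) :
    ∃ (m : ℕ) (M : Multiset ℕ), A = m ::ₘ M ∧ ∀ p ∈ M, p ≤ m := by
  obtain ⟨m, hm, hmax⟩ := Finset.exists_max_image A.toFinset id (by
    obtain ⟨a, ha⟩ := Multiset.exists_mem_of_ne_zero hA
    exact ⟨a, Multiset.mem_toFinset.2 ha⟩)
  obtain ⟨M, hM⟩ := Multiset.exists_cons_of_mem (Multiset.mem_toFinset.1 hm)
  refine ⟨m, M, hM, fun p hp => ?_⟩
  apply hmax p
  rw [Multiset.mem_toFinset, hM]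
  exact Multiset.mem_cons_of_mem hp

end Pool.Agent.Q258.ConnPart
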