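import Pool.Agent.TH326.L1e

/-!
# Smooth small functions on a real inner product space
-/

set_option autoImplicit false

namespace Pool.Agent.Q258.FH

open scoped BigOperators RealInnerProductSpace
open Pool.Agent.TH326.L1

section Smooth

variable {E : Type} [NormedAddCommGroup E] [NormedSpace ℝ E]

/-- Smoothing in finitely many directions. -/
theorem smooth2 {K ε : ℝ} (hK : 0 ≤ K) {g : E → ℝ} (hg : RL K g)
    (hε : ∀ x, |g x| ≤ ε) (v : ℕ → E) (N : ℕ) (hv : ∀ k, k < N → ‖v k‖ = 1) :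
    ∀ {η : ℝ}, 0 < η →
    ∃ g' : E → ℝ, RL K g' ∧ (∀ x, |g' x| ≤ ε) ∧ (∀ x, |g' x - g x| ≤ η) ∧
      ∃ C : ℝ, 0 ≤ C ∧ ∃ d : ℕ → E → ℝ, ∀ k, k < N → Dir C (v k) g' (d k) ∧
        RL C (d k) := by
  induction N with
  | zero =>
    intro η hη
    exact ⟨g, hg, hε, fun x => by simp [hη.le], 0, le_rfl, fun _ _ => 0,
      fun k hk => absurd hk (Nat.not_lt_zero k)⟩
  | succ N ih =>
    intro η hη
    obtain ⟨g1, hg1, hε1, hcl1, C, hC, d, hd⟩ := ih (fun k hk => hv k (by omega)) (half_pos hη)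
    set s : ℝ := η / (2 * (K + 1)) with hs
    have hspos : 0 < s := by positivity
    have hKs : K * s ≤ η / 2 := by
      rw [hs]
      have h1 : K * (η / (2 * (K + 1))) = (K / (K + 1)) * (η / 2) := by field_simp
      rw [h1]
      have h2 : K / (K + 1) ≤ 1 := by
        rw [div_le_one (by positivity)]; linarith
      have h3 : 0 ≤ η / 2 := by positivity
      nlinarith
    have hKsn : 0 ≤ 2 * K / s := by positivity
    refine ⟨avg s (v N) g1, avg_RL hspos hK hg1, avg_abs hspos hε1, ?_,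
      C + 2 * K / s, by positivity,
      fun k => if k = N then (fun x => (g1 (x + s • v N) - g1 x) / s)
        else avg s (v N) (d k), ?_⟩
    · intro x
      have h1 := avg_close hspos (hv N (by omega)) hK hg1 x
      have h2 := hcl1 x
      have h3 := abs_add_le (avg s (v N) g1 x - g1 x) (g1 x - g x)
      rw [sub_add_sub_cancel] at h3
      linarith
    · intro k hk
      by_cases hkN : k = N
      · subst hkN
        simp only [if_true]
        refine ⟨(Dir_own (hv k (by omega)) hK hg1 hspos).mono (by linarith), ?_⟩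
        intro x y
        have h1 := hg1 (x + s • v k) (y + s • v k)
        rw [add_sub_add_right_eq_sub] at h1
        have h2 := hg1 x y
        have h3 : |(g1 (x + s • v k) - g1 x) / s - (g1 (y + s • v k) - g1 y) / s| =
            |(g1 (x + s • v k) - g1 (y + s • v k)) - (g1 x - g1 y)| / s := by
          rw [← sub_div, abs_div, abs_of_pos hspos]
          congr 2; ring
        rw [h3, div_le_iff₀ hspos]
        have h4 := abs_sub (g1 (x + s • v k) - g1 (y + s • v k)) (g1 x - g1 y)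
        have h5 : (C + 2 * K / s) * ‖x - y‖ * s = C * ‖x - y‖ * s + 2 * K * ‖x - y‖ := by
          field_simp
        rw [h5]
        have h6 : 0 ≤ C * ‖x - y‖ * s := by positivity
        linarith
      · simp only [if_neg hkN]
        have hk' : k < N := by omega
        obtain ⟨h1, h3⟩ := hd k hk'
        exact ⟨(h1.avg (hg1.continuous hK) (h3.continuous hC) hspos).mono (by linarith),
          (avg_RL hspos hC h3).mono (by linarith)⟩

end Smooth

section Hilbert

variable {E : Type} [NormedAddCommGroup E] [InnerProductSpace ℝ E]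

/-- second order expansion with gradient field `T` -/
def Exp (A C : ℝ) (g : E → ℝ) (T : E → E) : Prop :=
  ∀ x h : E, |g (x + h) - g x - ⟪T x, h⟫| ≤ A * ‖h‖ + C * ‖h‖ ^ 2

/-- the gradient of a `K`-Lipschitz function has norm at most `K` -/
theorem norm_grad_le {K C : ℝ} (hK : 0 ≤ K) (hC : 0 ≤ C) {g : E → ℝ} (hg : RL K g)
    {T : E → E} (hT : Exp 0 C g T) (x : E) : ‖T x‖ ≤ K := by
  by_contra hcon
  push Not at hcon
  set τ : ℝ := ‖T x‖ with hτ
  have hTpos : 0 < τ := lt_of_le_of_lt hK hcon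
  set t : ℝ := (τ - K) / (2 * (C * τ + 1)) with ht
  have hpos : 0 < 2 * (C * τ + 1) := by positivity
  have htpos : 0 < t := div_pos (by linarith) hpos
  have h1 := hT x (t • T x)
  have h2 := hg (x + t • T x) x
  rw [add_sub_cancel_left, norm_smul, Real.norm_eq_abs, abs_of_pos htpos, ← hτ] at h2
  rw [inner_smul_right, real_inner_self_eq_norm_sq, norm_smul, Real.norm_eq_abs,
    abs_of_pos htpos, ← hτ, zero_mul, zero_add] at h1
  have h3 := (abs_le.mp h1).1
  have h4 := (abs_le.mp h2).2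
  have h5 : t * τ ^ 2 ≤ K * (t * τ) + C * (t * τ) ^ 2 := by linarith
  have h6 : (t * τ) * τ ≤ (t * τ) * (K + C * (t * τ)) := by nlinarith
  have h7 : τ ≤ K + C * (t * τ) := le_of_mul_le_mul_left h6 (by positivity)
  have h8 : C * (t * τ) = (τ - K) / 2 * (C * τ / (C * τ + 1)) := by
    rw [ht]; field_simp
  have h9 : C * τ / (C * τ + 1) ≤ 1 := by
    rw [div_le_one (by positivity)]; linarith
  have h10 : (τ - K) / 2 * (C * τ / (C * τ + 1)) ≤ (τ - K) / 2 * 1 :=
    mul_le_mul_of_nonneg_left h9 (by linarith)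
  linarith

/-- from directional expansions along an orthonormal basis to a full one -/
theorem exp_of_dir {n : ℕ} (b : OrthonormalBasis (Fin n) ℝ E) {g : E → ℝ} {C : ℝ} (hC : 0 ≤ C)
    {d : Fin n → E → ℝ} (hd : ∀ k, Dir C (b k) g (d k)) (hdL : ∀ k, RL C (d k)) :
    Exp 0 (n * ((n + 1) * C)) g (fun x => ∑ k, d k x • b k) := by
  classical
  intro x h
  set c : Fin n → ℝ := fun k => ⟪b k, h⟫ with hc
  have hcb : ∀ k, |c k| ≤ ‖h‖ := by
    intro k
    have := abs_real_inner_le_norm (b k) h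
    rwa [b.norm_eq_one, one_mul] at this
  have hS : ∀ s : Finset (Fin n), ‖∑ k ∈ s, c k • b k‖ ≤ n * ‖h‖ := by
    intro s
    refine (norm_sum_le _ _).trans ?_
    have h1 : ∀ k ∈ s, ‖c k • b k‖ ≤ ‖h‖ := by
      intro k _
      rw [norm_smul, b.norm_eq_one, mul_one, Real.norm_eq_abs]
      exact hcb k
    refine (Finset.sum_le_sum h1).trans ?_
    rw [Finset.sum_const, nsmul_eq_mul]
    refine mul_le_mul_of_nonneg_right ?_ (norm_nonneg _)
    have := Finset.card_le_univ s
    rw [Fintype.card_fin] at this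
    exact_mod_cast this
  have key : ∀ s : Finset (Fin n), |g (x + ∑ k ∈ s, c k • b k) - g x - ∑ k ∈ s, c k * d k x| ≤
      s.card * ((n + 1) * C * ‖h‖ ^ 2) := by
    intro s
    induction s using Finset.induction_on with
    | empty => simp
    | insert k s hk ih =>
      rw [Finset.sum_insert hk, Finset.sum_insert hk, Finset.card_insert_of_notMem hk]
      set S : E := ∑ j ∈ s, c j • b j with hSdef
      have h1 := hd k (x + S) (c k)
      have h2 := hdL k (x + S) x
      rw [add_sub_cancel_left] at h2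
      have e : x + (c k • b k + S) = x + S + c k • b k := by abel
      rw [e]
      have h3 : C * (c k) ^ 2 ≤ C * ‖h‖ ^ 2 := by
        refine mul_le_mul_of_nonneg_left ?_ hC
        rw [← sq_abs (c k)]
        exact pow_le_pow_left₀ (abs_nonneg _) (hcb k) 2
      have h4 : |c k * (d k (x + S) - d k x)| ≤ n * C * ‖h‖ ^ 2 := by
        rw [abs_mul]
        calc |c k| * |d k (x + S) - d k x| ≤ ‖h‖ * (C * (n * ‖h‖)) :=
              mul_le_mul (hcb k) (h2.trans (mul_le_mul_of_nonneg_left (hS s) hC))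
                (abs_nonneg _) (norm_nonneg _)
          _ = n * C * ‖h‖ ^ 2 := by ring
      have e2 : g (x + S + c k • b k) - g x - (c k * d k x + ∑ j ∈ s, c j * d j x) =
          (g (x + S) - g x - ∑ j ∈ s, c j * d j x) +
          ((g (x + S + c k • b k) - g (x + S) - c k * d k (x + S)) +
            c k * (d k (x + S) - d k x)) := by ring
      rw [e2]
      have h5 := abs_add_le (g (x + S) - g x - ∑ j ∈ s, c j * d j x)
        ((g (x + S + c k • b k) - g (x + S) - c k * d k (x + S)) + c k * (d k (x + S) - d k x))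
      have h6 := abs_add_le (g (x + S + c k • b k) - g (x + S) - c k * d k (x + S))
        (c k * (d k (x + S) - d k x))
      push_cast
      linarith
  have h1 := key Finset.univ
  have h2 : ∑ k, c k • b k = h := by
    simp only [hc]
    exact b.sum_repr' h
  have h3 : ⟪∑ k, d k x • b k, h⟫ = ∑ k, c k * d k x := by
    rw [sum_inner]
    refine Finset.sum_congr rfl fun k _ => ?_
    rw [inner_smul_left]
    simp only [hc, conj_trivial]
    ring
  rw [h2, Finset.card_univ, Fintype.card_fin] at h1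
  rw [h3]
  refine h1.trans (le_of_eq ?_)
  ring

/-- supply of small smooth functions -/
def Supply (μ : ℕ → E →₀ ℝ) (c : ℝ) : Prop :=
  ∀ ε : ℝ, 0 < ε → ∃ p : ℕ, ∀ j, p ≤ j → ∃ (g : E → ℝ) (C : ℝ) (T : E → E),
    RL 2 g ∧ (∀ x, |g x| ≤ ε) ∧ c ≤ M (μ j) g ∧ 0 ≤ C ∧ Exp 0 C g T ∧ (∀ x, ‖T x‖ ≤ 2) ∧
      ∀ x y, ‖T x - T y‖ ≤ C * ‖x - y‖

/-- smoothing a bounded Lipschitz function, close to it on a finite set -/
theorem smooth_on {ε : ℝ} {g : E → ℝ} (hg : RL 2 g) (hgε : ∀ x, |g x| ≤ ε)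
    (A : Finset E) {η : ℝ} (hη : 0 < η) :
    ∃ (g' : E → ℝ) (C : ℝ) (T : E → E), RL 2 g' ∧ (∀ x, |g' x| ≤ ε) ∧
      |g' 0 - g 0| ≤ η ∧ (∀ x ∈ A, |g' x - g x| ≤ η) ∧ 0 ≤ C ∧ Exp 0 C g' T ∧
      ∀ x y, ‖T x - T y‖ ≤ C * ‖x - y‖ := by
  classical
  let F : Submodule ℝ E := Submodule.span ℝ (A : Set E)
  have : FiniteDimensional ℝ F := FiniteDimensional.span_finset ℝ A
  let b : OrthonormalBasis (Fin (Module.finrank ℝ F)) ℝ F := stdOrthonormalBasis ℝ F
  set n := Module.finrank ℝ F with hn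
  set g0 : F → ℝ := fun x => g x with hg0
  have hg0L : RL 2 g0 := fun x y => hg x y
  obtain ⟨G, hG, hGε, hGcl, C, hC, d, hd⟩ := smooth2 (by norm_num : (0:ℝ) ≤ 2) hg0L
    (fun x => hgε x) (fun k => if h : k < n then b ⟨k, h⟩ else 0) n
    (fun k hk => by simp [hk, b.norm_eq_one]) hη
  have hExp := exp_of_dir b (g := G) hC (d := fun k => d k)
    (fun k => by
      have := (hd k k.2).1
      simpa using this)
    (fun k => (hd k k.2).2)
  set TF : F → F := fun x => ∑ k : Fin n, d k x • b k with hTF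
  set P := F.orthogonalProjectionOnto with hP
  have hPle : ∀ x, ‖P x‖ ≤ ‖x‖ := fun x => F.norm_orthogonalProjectionOnto_apply_le x
  have hTFL : ∀ x y, ‖TF x - TF y‖ ≤ n * C * ‖x - y‖ := by
    intro x y
    simp only [hTF]
    rw [← Finset.sum_sub_distrib]
    refine (norm_sum_le _ _).trans ?_
    have h1 : ∀ k ∈ (Finset.univ : Finset (Fin n)), ‖d k x • b k - d k y • b k‖ ≤
        C * ‖x - y‖ := by
      intro k _
      rw [← sub_smul, norm_smul, b.norm_eq_one, mul_one, Real.norm_eq_abs]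
      exact (hd k k.2).2 x y
    refine (Finset.sum_le_sum h1).trans ?_
    rw [Finset.sum_const, Finset.card_univ, Fintype.card_fin, nsmul_eq_mul]
    exact le_of_eq (by ring)
  have hnC : (n : ℝ) * C ≤ n * ((n + 1) * C) := by
    refine mul_le_mul_of_nonneg_left ?_ (Nat.cast_nonneg _)
    have : (0:ℝ) ≤ n := Nat.cast_nonneg _
    nlinarith
  refine ⟨fun x => G (P x), n * ((n + 1) * C), fun x => (TF (P x) : E), ?_, fun x => hGε _,
    ?_, ?_, by positivity, ?_, ?_⟩
  · intro x y
    refine (hG _ _).trans ?_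
    rw [← map_sub]
    exact mul_le_mul_of_nonneg_left (hPle _) (by norm_num)
  · have := hGcl 0
    simp only
    rw [map_zero]
    simpa [hg0] using this
  · intro x hx
    have hxF : x ∈ F := Submodule.subset_span hx
    have h1 : P x = ⟨x, hxF⟩ := F.orthogonalProjectionOnto_mem_subspace_eq_self ⟨x, hxF⟩
    simp only
    rw [h1]
    exact hGcl _
  · intro x h
    have h1 := hExp (P x) (P h)
    have h2 : ⟪(TF (P x) : E), h⟫ = ⟪TF (P x), P h⟫ :=
      (F.inner_orthogonalProjectionOnto_eq_of_mem_left (TF (P x)) h).symm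
    simp only
    rw [map_add, h2]
    refine h1.trans ?_
    rw [zero_mul, zero_mul]
    have h3 : ‖P h‖ ^ 2 ≤ ‖h‖ ^ 2 := pow_le_pow_left₀ (norm_nonneg _) (hPle h) 2
    have h4 := mul_le_mul_of_nonneg_left h3 (by positivity : 0 ≤ (n:ℝ) * ((n + 1) * C))
    linarith
  · intro x y
    simp only
    rw [← Submodule.coe_sub]
    change ‖TF (P x) - TF (P y)‖ ≤ _
    refine (hTFL _ _).trans ?_
    rw [← map_sub]
    exact mul_le_mul hnC (hPle _) (norm_nonneg _) (by positivity)

theorem supply {μ : ℕ → E →₀ ℝ} {b : ℝ} (hW : WUC μ b) {a : ℝ} (ha : 0 < a)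
    {f : ℕ → E → ℝ} (hf : ∀ j, RL 1 (f j)) (hf0 : ∀ j, f j 0 = 0) (hfM : ∀ j, a ≤ M (μ j) (f j)) :
    Supply μ (a / 4) := by
  intro ε hε
  obtain ⟨p, hp⟩ := smallsup hW ha hf hf0 hfM hε
  refine ⟨p, fun j hj => ?_⟩
  obtain ⟨g, hg, hgε, hgM⟩ := hp j hj
  set W : ℝ := ∑ x ∈ (μ j).support, |μ j x| with hWdef
  have hW0 : 0 ≤ W := Finset.sum_nonneg fun _ _ => abs_nonneg _
  set η : ℝ := a / (16 * (W + 1)) with hη
  have hηpos : 0 < η := by positivity
  have hWη : W * (2 * η) ≤ a / 8 := by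
    have h1 : W * (2 * η) = (W / (W + 1)) * (a / 8) := by
      rw [hη]; field_simp; ring
    rw [h1]
    have h2 : W / (W + 1) ≤ 1 := by rw [div_le_one (by positivity)]; linarith
    have h3 : 0 ≤ a / 8 := by positivity
    nlinarith
  obtain ⟨g', C, T, hg', hg'ε, h0, hcl, hC, hT, hTL⟩ := smooth_on hg hgε (μ j).support hηpos
  have hM1 := M_close (μ j) (g := g') (h := g) (η := η) h0 hcl
  rw [abs_le] at hM1
  refine ⟨g', C, T, hg', hg'ε, ?_, hC, hT, norm_grad_le (by norm_num) hC hg' hT, hTL⟩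
  linarith [hM1.1]

end Hilbert

end Pool.Agent.Q258.FH
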