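import Pool.Agent.Q258.FH1

/-!
# No `c₀` in the Lipschitz-free space over a Hilbert space: random signs
-/

set_option autoImplicit false

namespace Pool.Agent.Q258.FH

open scoped BigOperators RealInnerProductSpace
open Pool.Agent.TH326.L1

variable {E : Type} [NormedAddCommGroup E] [InnerProductSpace ℝ E]

/-- the soft cutoff -/
noncomputable def psi (Λ : ℝ) (T : E → E) : E → ℝ :=
  fun x => max (1 - ‖T x‖ ^ 2 / Λ ^ 2) 0

theorem psi_nonneg (Λ : ℝ) (T : E → E) (x : E) : 0 ≤ psi Λ T x := le_max_right _ _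

theorem psi_le_one (Λ : ℝ) (T : E → E) (x : E) : psi Λ T x ≤ 1 := by
  unfold psi
  refine max_le ?_ zero_le_one
  have : 0 ≤ ‖T x‖ ^ 2 / Λ ^ 2 := div_nonneg (sq_nonneg _) (sq_nonneg _)
  linarith

theorem one_sub_psi_le (Λ : ℝ) (T : E → E) (x : E) :
    1 - psi Λ T x ≤ ‖T x‖ ^ 2 / Λ ^ 2 := by
  unfold psi
  have := le_max_left (1 - ‖T x‖ ^ 2 / Λ ^ 2) 0
  linarith

theorem psi_ne_zero {Λ : ℝ} (hΛ : 0 < Λ) {T : E → E} {x : E} (h : psi Λ T x ≠ 0) :
    ‖T x‖ ≤ Λ := by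
  have h1 : 0 < 1 - ‖T x‖ ^ 2 / Λ ^ 2 := by
    by_contra hle
    apply h
    unfold psi
    rw [max_eq_right (not_lt.mp hle)]
  have h3 : ‖T x‖ ^ 2 / Λ ^ 2 < 1 := by linarith
  rw [div_lt_one (by positivity)] at h3
  exact le_of_lt (lt_of_pow_lt_pow_left₀ 2 hΛ.le h3)

theorem RL_psi {Λ C B : ℝ} (hB : 0 ≤ B) (hC : 0 ≤ C) {T : E → E}
    (hT : ∀ x y, ‖T x - T y‖ ≤ C * ‖x - y‖) (hTB : ∀ x, ‖T x‖ ≤ B) :
    RL (2 * C * B / Λ ^ 2) (psi Λ T) := by
  have h1 : RL (2 * C * B / Λ ^ 2)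
      (fun x : E => 1 - ‖T x‖ ^ 2 / Λ ^ 2) := by
    intro x y
    have h2 : |‖T x‖ ^ 2 - ‖T y‖ ^ 2| ≤ 2 * C * B * ‖x - y‖ := by
      have e : ‖T x‖ ^ 2 - ‖T y‖ ^ 2 = (‖T x‖ - ‖T y‖) * (‖T x‖ + ‖T y‖) := by ring
      rw [e, abs_mul]
      have h3 : |‖T x‖ - ‖T y‖| ≤ C * ‖x - y‖ := (abs_norm_sub_norm_le _ _).trans (hT x y)
      have h4 : |‖T x‖ + ‖T y‖| ≤ 2 * B := by
        rw [abs_of_nonneg (by positivity)]
        linarith [hTB x, hTB y]
      calc |‖T x‖ - ‖T y‖| * |‖T x‖ + ‖T y‖| ≤ (C * ‖x - y‖) * (2 * B) :=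
            mul_le_mul h3 h4 (abs_nonneg _) (by positivity)
        _ = 2 * C * B * ‖x - y‖ := by ring
    have h4 : (1 - ‖T x‖ ^ 2 / Λ ^ 2) - (1 - ‖T y‖ ^ 2 / Λ ^ 2) =
        -((‖T x‖ ^ 2 - ‖T y‖ ^ 2) / Λ ^ 2) := by
      ring
    rw [h4, abs_neg, abs_div, abs_of_nonneg (sq_nonneg Λ)]
    refine (div_le_div_of_nonneg_right h2 (sq_nonneg Λ)).trans (le_of_eq ?_)
    ring
  exact h1.max (RL.const (by positivity) 0)

/-- the state of the construction after `i` steps -/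
def St (μ : ℕ → E →₀ ℝ) (Λ η c : ℝ) (i : ℕ) : Prop :=
  ∃ (Ω : Type) (_ : Fintype Ω) (_ : Nonempty Ω) (f : Ω → E → ℝ) (T : Ω → E → E)
    (θ : Ω → ℕ →₀ ℝ) (q : ℕ) (C : ℝ), 0 ≤ C ∧
    (∀ ω, Exp (i * η) C (f ω) (T ω)) ∧
    (∀ ω x, ‖T ω x‖ ≤ Λ + 2) ∧
    (∀ ω x y, ‖T ω x - T ω y‖ ≤ C * ‖x - y‖) ∧
    (∀ x, ∑ ω, ‖T ω x‖ ^ 2 ≤ Fintype.card Ω * (i * 4)) ∧
    (∀ ω j, |θ ω j| ≤ 1) ∧ (∀ ω j, q ≤ j → θ ω j = 0) ∧
    Fintype.card Ω * (i * (c / 2)) ≤ ∑ ω, Phi μ (θ ω) (f ω)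

theorem St_zero (μ : ℕ → E →₀ ℝ) {Λ η c : ℝ} (hΛ : 0 < Λ) : St μ Λ η c 0 := by
  refine ⟨Unit, inferInstance, inferInstance, fun _ _ => 0, fun _ _ => 0, fun _ => 0, 0, 0,
    le_rfl, fun _ x h => by simp, fun _ _ => ?_, fun _ _ _ => by simp, fun _ => by simp,
    by simp, by simp, ?_⟩
  · rw [norm_zero]; positivity
  · simp [Phi_zero_left]

theorem St_succ {μ : ℕ → E →₀ ℝ} {b : ℝ} (hb : 0 ≤ b) (hW : WUC μ b)
    {Λ η c κ : ℝ} (hΛ : 0 < Λ) (hη : 0 < η) (hc : 0 < c) (hsup : Supply μ c)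
    (hκ0 : 0 ≤ κ) (hκ : 2 * b * κ ≤ c / 4) (i : ℕ) (hi : (i * 4 : ℝ) ≤ κ * Λ ^ 2)
    (hSt : St μ Λ η c i) : St μ Λ η c (i + 1) := by
  classical
  obtain ⟨Ω, _, _, f, T, θ, q, C, hC, hfT, hTB, hTL, hT2, hθ1, hθq, hPhi⟩ := hSt
  set B : ℝ := Λ + 2 with hBdef
  have hB : 0 ≤ B := by positivity
  set Cψ : ℝ := 2 * C * B / Λ ^ 2 with hCψdef
  have hCψ : 0 ≤ Cψ := by positivity
  set ψ : Ω → E → ℝ := fun ω => psi Λ (T ω) with hψdef
  have hψ0 : ∀ ω x, 0 ≤ ψ ω x := fun ω x => psi_nonneg _ _ _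
  have hψ1 : ∀ ω x, ψ ω x ≤ 1 := fun ω x => psi_le_one _ _ _
  have hψa : ∀ ω x, |ψ ω x| ≤ 1 := fun ω x => by rw [abs_of_nonneg (hψ0 ω x)]; exact hψ1 ω x
  have hψL : ∀ ω, RL Cψ (ψ ω) := fun ω => RL_psi hB hC (hTL ω) (hTB ω)
  -- choice of ε
  set η' : ℝ := min η (c / (4 * (b + 1))) with hη'def
  have hη'pos : 0 < η' := lt_min hη (by positivity)
  have hη'1 : η' ≤ η := min_le_left _ _
  have hη'3 : η' ≤ c / (4 * (b + 1)) := min_le_right _ _
  set ε : ℝ := η' / (Cψ + 1) with hεdef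
  have hε : 0 < ε := by positivity
  have hεC : ε * Cψ ≤ η' := by
    have h1 : ε * Cψ = (Cψ / (Cψ + 1)) * η' := by rw [hεdef]; field_simp
    rw [h1]
    have h2 : Cψ / (Cψ + 1) ≤ 1 := by rw [div_le_one (by positivity)]; linarith
    nlinarith
  have hεC0 : 0 ≤ ε * Cψ := by positivity
  obtain ⟨pε, hpε⟩ := hsup ε hε
  set j : ℕ := max q pε with hj
  have hjq : q ≤ j := le_max_left _ _
  have hjε : pε ≤ j := le_max_right _ _
  obtain ⟨g, Cg, d, hg, hgε, hgM, hCg, hgd, hd2, hdL⟩ := hpε j hjε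
  have habs : ∀ s : ℝ, |s| = 1 → ∀ ω i, |(θ ω + s • Finsupp.single j (1:ℝ)) i| ≤ 1 := by
    intro σ hσ ω i
    simp only [Finsupp.add_apply, Finsupp.smul_apply, smul_eq_mul, Finsupp.single_apply]
    by_cases hij : j = i
    · subst hij
      simp [hθq ω j hjq, hσ]
    · simp [hij, hθ1 ω i]
  have hdψ : ∀ ω x, ‖ψ ω x • d x‖ ≤ 2 := by
    intro ω x
    rw [norm_smul, Real.norm_eq_abs]
    calc |ψ ω x| * ‖d x‖ ≤ 1 * 2 :=
          mul_le_mul (hψa ω x) (hd2 x) (norm_nonneg _) zero_le_one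
      _ = 2 := by norm_num
  have hsg : ∀ (s : Bool) (v : E), ‖sg s • v‖ = ‖v‖ := by
    intro s v
    rw [norm_smul, Real.norm_eq_abs, sg_abs, one_mul]
  refine ⟨Ω × Bool, inferInstance, inferInstance, fun w => f w.1 + sg w.2 • (g * ψ w.1),
    fun w x => T w.1 x + sg w.2 • (ψ w.1 x • d x),
    fun w => θ w.1 + sg w.2 • Finsupp.single j (1:ℝ), j + 1,
    C + Cg + 2 * Cψ, by positivity, ?_, ?_, ?_, ?_, ?_, ?_, ?_⟩
  · rintro ⟨ω, s⟩ x h
    simp only [Pi.add_apply, Pi.smul_apply, Pi.mul_apply, smul_eq_mul]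
    have h1 := hfT ω x h
    have h2 := hgd x h
    rw [zero_mul, zero_add] at h2
    have h3 : |ψ ω (x + h) - ψ ω x| ≤ Cψ * ‖h‖ := by
      have := hψL ω (x + h) x
      rwa [add_sub_cancel_left] at this
    rw [inner_add_left, real_inner_smul_left, real_inner_smul_left]
    have e1 : f ω (x + h) + sg s * (g (x + h) * ψ ω (x + h)) -
        (f ω x + sg s * (g x * ψ ω x)) - (⟪T ω x, h⟫ + sg s * (ψ ω x * ⟪d x, h⟫)) =
        (f ω (x + h) - f ω x - ⟪T ω x, h⟫) +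
        (sg s * (ψ ω x * (g (x + h) - g x - ⟪d x, h⟫)) +
         sg s * (g (x + h) * (ψ ω (x + h) - ψ ω x))) := by ring
    rw [e1]
    have h4 : |sg s * (ψ ω x * (g (x + h) - g x - ⟪d x, h⟫))| ≤ Cg * ‖h‖ ^ 2 := by
      rw [abs_mul, sg_abs, one_mul, abs_mul]
      calc |ψ ω x| * |g (x + h) - g x - ⟪d x, h⟫|
          ≤ 1 * (Cg * ‖h‖ ^ 2) := mul_le_mul (hψa ω x) h2 (abs_nonneg _) zero_le_one
        _ = Cg * ‖h‖ ^ 2 := one_mul _
    have h5 : |sg s * (g (x + h) * (ψ ω (x + h) - ψ ω x))| ≤ η * ‖h‖ := by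
      rw [abs_mul, sg_abs, one_mul, abs_mul]
      calc |g (x + h)| * |ψ ω (x + h) - ψ ω x|
          ≤ ε * (Cψ * ‖h‖) := mul_le_mul (hgε _) h3 (abs_nonneg _) hε.le
        _ = ε * Cψ * ‖h‖ := by ring
        _ ≤ η * ‖h‖ := mul_le_mul_of_nonneg_right (hεC.trans hη'1) (norm_nonneg _)
    have h6 := abs_add_le (f ω (x + h) - f ω x - ⟪T ω x, h⟫)
      (sg s * (ψ ω x * (g (x + h) - g x - ⟪d x, h⟫)) +
         sg s * (g (x + h) * (ψ ω (x + h) - ψ ω x)))
    have h7 := abs_add_le (sg s * (ψ ω x * (g (x + h) - g x - ⟪d x, h⟫)))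
         (sg s * (g (x + h) * (ψ ω (x + h) - ψ ω x)))
    have h8 : 0 ≤ 2 * Cψ * ‖h‖ ^ 2 := by positivity
    push_cast
    nlinarith
  · rintro ⟨ω, s⟩ x
    simp only
    by_cases hz : ψ ω x = 0
    · rw [hz, zero_smul, smul_zero, add_zero]; exact hTB ω x
    · have h1 : ‖T ω x‖ ≤ Λ := psi_ne_zero hΛ hz
      have h2 := norm_add_le (T ω x) (sg s • (ψ ω x • d x))
      rw [hsg] at h2
      linarith [hdψ ω x]
  · rintro ⟨ω, s⟩ x y
    simp only
    have e1 : T ω x + sg s • (ψ ω x • d x) - (T ω y + sg s • (ψ ω y • d y)) =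
        (T ω x - T ω y) + (sg s • (ψ ω x • (d x - d y)) + sg s • ((ψ ω x - ψ ω y) • d y)) := by
      simp only [smul_sub, sub_smul]
      abel
    rw [e1]
    have h1 := norm_add_le (T ω x - T ω y)
      (sg s • (ψ ω x • (d x - d y)) + sg s • ((ψ ω x - ψ ω y) • d y))
    have h2 := norm_add_le (sg s • (ψ ω x • (d x - d y))) (sg s • ((ψ ω x - ψ ω y) • d y))
    rw [hsg, hsg, norm_smul, norm_smul, Real.norm_eq_abs, Real.norm_eq_abs] at h2
    have h3 : |ψ ω x| * ‖d x - d y‖ ≤ 1 * (Cg * ‖x - y‖) :=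
      mul_le_mul (hψa ω x) (hdL x y) (norm_nonneg _) zero_le_one
    have h4 : |ψ ω x - ψ ω y| * ‖d y‖ ≤ (Cψ * ‖x - y‖) * 2 :=
      mul_le_mul (hψL ω x y) (hd2 y) (norm_nonneg _) (by positivity)
    have h5 := hTL ω x y
    have h6 : (C + Cg + 2 * Cψ) * ‖x - y‖ = C * ‖x - y‖ + 1 * (Cg * ‖x - y‖) +
        (Cψ * ‖x - y‖) * 2 := by ring
    linarith
  · intro x
    rw [Fintype.sum_prod_type]
    have h1 : ∀ ω : Ω, ∑ s : Bool, ‖T ω x + sg s • (ψ ω x • d x)‖ ^ 2 ≤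
        2 * ‖T ω x‖ ^ 2 + 8 := by
      intro ω
      rw [Fintype.sum_bool]
      simp only [sg, if_true, Bool.false_eq_true, if_false, one_smul, neg_smul]
      rw [← sub_eq_add_neg]
      have h2 := parallelogram_law_with_norm ℝ (T ω x) (ψ ω x • d x)
      have h3 := hdψ ω x
      have h4 : ‖ψ ω x • d x‖ ^ 2 ≤ 4 := by nlinarith [norm_nonneg (ψ ω x • d x)]
      nlinarith
    refine (Finset.sum_le_sum fun ω _ => h1 ω).trans ?_
    rw [Finset.sum_add_distrib, ← Finset.mul_sum, Finset.sum_const, Finset.card_univ,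
      nsmul_eq_mul, Fintype.card_prod, Fintype.card_bool]
    have := hT2 x
    push_cast
    linarith
  · rintro ⟨ω, s⟩ i
    exact habs _ (sg_abs s) ω i
  · rintro ⟨ω, s⟩ i hi
    simp only [Finsupp.add_apply, Finsupp.smul_apply, smul_eq_mul, Finsupp.single_apply]
    rw [hθq ω i (by omega), if_neg (by omega)]
    simp
  · rw [Fintype.sum_prod_type]
    have h1 : ∀ ω : Ω, ∑ s : Bool, Phi μ (θ ω + sg s • Finsupp.single j (1:ℝ))
        (f ω + sg s • (g * ψ ω)) = 2 * Phi μ (θ ω) (f ω) + 2 * M (μ j) (g * ψ ω) := by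
      intro ω
      rw [Fintype.sum_bool]
      simp only [Phi_add_left, Phi_smul_left, Phi_add_right, Phi_smul_right, Phi_single]
      simp only [sg, if_true, Bool.false_eq_true, if_false]
      ring
    simp only [h1]
    rw [Finset.sum_add_distrib, ← Finset.mul_sum, ← Finset.mul_sum]
    -- the average pairing
    set φ : E → ℝ := fun x => ∑ ω : Ω, (1 - ψ ω x) with hφ
    have hcard : (0:ℝ) ≤ Fintype.card Ω := Nat.cast_nonneg _
    have hφa : ∀ x, |φ x| ≤ Fintype.card Ω * κ := by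
      intro x
      have h2 : 0 ≤ φ x := Finset.sum_nonneg fun ω _ => by linarith [hψ1 ω x]
      rw [abs_of_nonneg h2]
      have h3 : φ x ≤ ∑ ω : Ω, ‖T ω x‖ ^ 2 / Λ ^ 2 :=
        Finset.sum_le_sum fun ω _ => one_sub_psi_le Λ (T ω) x
      refine h3.trans ?_
      rw [← Finset.sum_div, div_le_iff₀ (by positivity)]
      refine (hT2 x).trans ?_
      have h5 := mul_le_mul_of_nonneg_left hi hcard
      linarith
    have hφL : RL (Fintype.card Ω * Cψ) φ := by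
      intro x y
      simp only [hφ]
      rw [← Finset.sum_sub_distrib]
      refine (Finset.abs_sum_le_sum_abs _ _).trans ?_
      have h2 : ∀ ω ∈ (Finset.univ : Finset Ω), |1 - ψ ω x - (1 - ψ ω y)| ≤ Cψ * ‖x - y‖ := by
        intro ω _
        have := hψL ω y x
        rw [norm_sub_rev] at this
        refine le_trans (le_of_eq ?_) this
        congr 1; ring
      refine (Finset.sum_le_sum h2).trans ?_
      rw [Finset.sum_const, Finset.card_univ, nsmul_eq_mul]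
      exact le_of_eq (by ring)
    have hgφ : |M (μ j) (g * φ)| ≤ Fintype.card Ω * (c / 2) := by
      have h2 := hg.mul hφL hgε hφa
      have h3 := hW.single j (by positivity) h2
      refine h3.trans ?_
      have h4 : b * (ε * Cψ) ≤ c / 4 := by
        have h5 : b * (ε * Cψ) ≤ b * (c / (4 * (b + 1))) :=
          mul_le_mul_of_nonneg_left (hεC.trans hη'3) hb
        have h6 : b * (c / (4 * (b + 1))) = (b / (b + 1)) * (c / 4) := by field_simp
        have h7 : b / (b + 1) ≤ 1 := by rw [div_le_one (by positivity)]; linarith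
        rw [h6] at h5
        nlinarith
      have h8 : b * (2 * (Fintype.card Ω * κ) + ε * (Fintype.card Ω * Cψ)) =
          Fintype.card Ω * (2 * b * κ + b * (ε * Cψ)) := by ring
      rw [h8]
      exact mul_le_mul_of_nonneg_left (by linarith) hcard
    have hsumM : ∑ ω : Ω, M (μ j) (g * ψ ω) =
        Fintype.card Ω * M (μ j) g - M (μ j) (g * φ) := by
      rw [← M_sum]
      have h2 : ∑ ω : Ω, g * ψ ω = (Fintype.card Ω : ℝ) • g - g * φ := by
        ext x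
        simp only [Finset.sum_apply, Pi.mul_apply, Pi.sub_apply, Pi.smul_apply, smul_eq_mul, hφ]
        rw [← Finset.mul_sum, Finset.sum_sub_distrib, Finset.sum_const, Finset.card_univ,
          nsmul_eq_mul, mul_one]
        ring
      rw [h2, M_sub, M_smul]
    rw [hsumM, Fintype.card_prod, Fintype.card_bool]
    have h9 := (abs_le.mp hgφ).2
    have h10 := mul_le_mul_of_nonneg_left hgM hcard
    push_cast
    linarith

/-- The main theorem in abstract form. -/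
theorem main {μ : ℕ → E →₀ ℝ} {b : ℝ} (hb : 0 ≤ b) (hW : WUC μ b) {a : ℝ}
    (ha : 0 < a) {f : ℕ → E → ℝ} (hf : ∀ j, RL 1 (f j)) (hf0 : ∀ j, f j 0 = 0)
    (hfM : ∀ j, a ≤ M (μ j) (f j)) : False := by
  set c : ℝ := a / 4 with hcdef
  have hc : 0 < c := by positivity
  have hsup : Supply μ c := supply hW ha hf hf0 hfM
  set κ : ℝ := c / (8 * (b + 1)) with hκdef
  have hκpos : 0 < κ := by positivity
  have hκ : 2 * b * κ ≤ c / 4 := by
    have h1 : 2 * b * κ = (b / (b + 1)) * (c / 4) := by rw [hκdef]; field_simp; ring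
    have h2 : b / (b + 1) ≤ 1 := by rw [div_le_one (by positivity)]; linarith
    rw [h1]
    nlinarith
  set L0 : ℝ := 4 / κ + 1 with hL0
  have hL0a : 0 ≤ 4 / κ := by positivity
  have hL0b : 4 ≤ κ * L0 ^ 2 := by
    have h1 : 4 = κ * (4 / κ) := by field_simp
    calc (4:ℝ) = κ * (4 / κ) := h1
      _ ≤ κ * L0 ^ 2 := by
        refine mul_le_mul_of_nonneg_left ?_ hκpos.le
        nlinarith
  obtain ⟨r, hr⟩ := exists_nat_gt (4 * b * (L0 + 3) / c + 1)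
  have hr0 : 0 ≤ 4 * b * (L0 + 3) / c := by positivity
  have hr1 : (1:ℝ) < r := by linarith
  set m : ℕ := r ^ 2 with hm
  have hmr : (m : ℝ) = (r:ℝ) ^ 2 := by rw [hm]; push_cast; ring
  set Λ : ℝ := r * L0 with hΛdef
  have hΛ : 0 < Λ := by positivity
  set η : ℝ := 1 / (m + 1) with hηdef
  have hη : 0 < η := by positivity
  have hSt : ∀ i, i ≤ m → St μ Λ η c i := by
    intro i
    induction i with
    | zero => intro _; exact St_zero μ hΛ
    | succ i ih =>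
      intro hi
      refine St_succ hb hW hΛ hη hc hsup hκpos.le hκ i ?_ (ih (by omega))
      have h1 : (i:ℝ) ≤ m := by exact_mod_cast (by omega : i ≤ m)
      calc (i * 4 : ℝ) ≤ m * 4 := by linarith
        _ = (r:ℝ) ^ 2 * 4 := by rw [hmr]
        _ ≤ (r:ℝ) ^ 2 * (κ * L0 ^ 2) := mul_le_mul_of_nonneg_left hL0b (by positivity)
        _ = κ * Λ ^ 2 := by rw [hΛdef]; ring
  obtain ⟨Ω, _, _, F, T, θ, q, C, hC, hFT, hTB, hTL, hT2, hθ1, hθq, hPhi⟩ := hSt m le_rfl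
  have hcard : (0:ℝ) < Fintype.card Ω := by exact_mod_cast Fintype.card_pos
  have hex : ∃ ω, (m:ℝ) * (c / 2) ≤ Phi μ (θ ω) (F ω) := by
    by_contra hcon
    push Not at hcon
    have h1 : ∑ ω, Phi μ (θ ω) (F ω) < ∑ ω : Ω, (m:ℝ) * (c / 2) :=
      Finset.sum_lt_sum_of_nonempty Finset.univ_nonempty fun ω _ => hcon ω
    rw [Finset.sum_const, Finset.card_univ, nsmul_eq_mul] at h1
    linarith
  obtain ⟨ω, hω⟩ := hex
  have hFL : RL (Λ + 3) (F ω) := by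
    intro x y
    by_cases hxy : x = y
    · subst hxy; simp
    have hnxy : 0 < ‖x - y‖ := norm_pos_iff.mpr (sub_ne_zero.mpr hxy)
    have h1 : ∀ u s : ℝ, |F ω (y + (u + s) • (x - y)) - F ω (y + u • (x - y))| ≤
        ((Λ + 3) * ‖x - y‖) * |s| + (C * ‖x - y‖ ^ 2) * s ^ 2 := by
      intro u s
      have h2 := hFT ω (y + u • (x - y)) (s • (x - y))
      have h3 := hTB ω (y + u • (x - y))
      rw [add_smul, ← add_assoc]
      have h4 : (m:ℝ) * η ≤ 1 := by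
        rw [hηdef, mul_one_div, div_le_one (by positivity)]; linarith
      have h5 := abs_add_le (F ω (y + u • (x - y) + s • (x - y)) - F ω (y + u • (x - y)) -
        ⟪T ω (y + u • (x - y)), s • (x - y)⟫) ⟪T ω (y + u • (x - y)), s • (x - y)⟫
      rw [sub_add_cancel] at h5
      have h6 := abs_real_inner_le_norm (T ω (y + u • (x - y))) (s • (x - y))
      rw [norm_smul, Real.norm_eq_abs] at h6 h2
      have h7 : ‖T ω (y + u • (x - y))‖ * (|s| * ‖x - y‖) ≤ (Λ + 2) * (|s| * ‖x - y‖) :=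
        mul_le_mul_of_nonneg_right h3 (by positivity)
      have h8 : (m:ℝ) * η * (|s| * ‖x - y‖) ≤ 1 * (|s| * ‖x - y‖) :=
        mul_le_mul_of_nonneg_right h4 (by positivity)
      have h9 : C * (|s| * ‖x - y‖) ^ 2 = (C * ‖x - y‖ ^ 2) * s ^ 2 := by
        rw [mul_pow, sq_abs]; ring
      rw [h9] at h2
      have h10 : ((Λ + 3) * ‖x - y‖) * |s| = (Λ + 2) * (|s| * ‖x - y‖) +
        1 * (|s| * ‖x - y‖) := by ring
      linarith
    have h2 := subdiv (F := fun u => F ω (y + u • (x - y))) h1 1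
    simpa using h2
  have hfin := hW (θ ω) (hθ1 ω) (F ω) (Λ + 3) (by positivity) hFL
  have h1 : (m:ℝ) * (c / 2) ≤ b * (Λ + 3) := by linarith
  rw [hmr, hΛdef] at h1
  have h2 : b * (r * L0 + 3) ≤ b * (r * (L0 + 3)) := by
    refine mul_le_mul_of_nonneg_left ?_ hb
    nlinarith
  have h3 : (r:ℝ) * (r * (c / 2)) ≤ r * (b * (L0 + 3)) := by nlinarith
  have h4 : (r:ℝ) * (c / 2) ≤ b * (L0 + 3) := le_of_mul_le_mul_left h3 (by linarith)
  have h5 : 4 * b * (L0 + 3) / c < r := by linarith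
  rw [div_lt_iff₀ hc] at h5
  nlinarith

end Pool.Agent.Q258.FH
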