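import Mathlib

/-!
Interpolation for partitions into indivisible members of a monotone family.
-/

namespace Q258.Interp

variable {V : Type*} [DecidableEq V]

/-- `s` is a member that is not the disjoint union of two members. -/
def Ind (P : Finset V → Prop) (s : Finset V) : Prop :=
  P s ∧ ¬ ∃ a b : Finset V, a ∪ b = s ∧ Disjoint a b ∧ P a ∧ P b

/-- `R` contains `m` pairwise disjoint members. -/
def Nn (P : Finset V → Prop) : Finset V → ℕ → Prop
  | _, 0 => True
  | R, m + 1 => ∃ S, S ⊆ R ∧ P S ∧ Nn P (R \ S) m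

/-- `R` is the disjoint union of `m` indivisible members. -/
def J (P : Finset V → Prop) : Finset V → ℕ → Prop
  | R, 0 => R = ∅
  | R, m + 1 => ∃ S, S ⊆ R ∧ Ind P S ∧ J P (R \ S) m

variable {P : Finset V → Prop}

theorem Nn_mono : ∀ (m : ℕ) {R R' : Finset V}, R ⊆ R' → Nn P R m → Nn P R' m
  | 0, _, _, _, _ => trivial
  | m + 1, R, R', h, ⟨S, hS, hP, hN⟩ =>
    ⟨S, hS.trans h, hP, Nn_mono m (Finset.sdiff_subset_sdiff h (Finset.Subset.refl S)) hN⟩

theorem Nn_insert (x : V) : ∀ (m : ℕ) {R : Finset V}, Nn P (insert x R) (m + 1) → Nn P R m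
  | 0, _, _ => trivial
  | m + 1, R, ⟨S, hS, hP, hN⟩ => by
    by_cases hx : x ∈ S
    · refine Nn_mono (m + 1) ?_ hN
      intro y hy
      rw [Finset.mem_sdiff, Finset.mem_insert] at hy
      rcases hy.1 with h | h
      · exact absurd (h ▸ hx) hy.2
      · exact h
    · refine ⟨S, ?_, hP, ?_⟩
      · intro y hy
        rcases Finset.mem_insert.1 (hS hy) with h | h
        · exact absurd (h ▸ hy) hx
        · exact h
      · apply Nn_insert x m
        rwa [Finset.insert_sdiff_of_notMem R hx] at hN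

theorem J_of_Nn (hmono : ∀ s t, P s → s ⊆ t → P t) :
    ∀ (m : ℕ) {R : Finset V}, Nn P R (m + 1) → ¬ Nn P R (m + 2) → J P R (m + 1)
  | 0, R, ⟨S, hS, hP, _⟩, h2 => by
    refine ⟨R, Finset.Subset.refl R, ⟨hmono S R hP hS, ?_⟩, ?_⟩
    · rintro ⟨a, b, hab, hd, ha, hb⟩
      apply h2
      refine ⟨a, hab ▸ Finset.subset_union_left, ha, b, ?_, hb, trivial⟩
      intro y hy
      rw [Finset.mem_sdiff]
      exact ⟨hab ▸ Finset.mem_union_right a hy, fun h => (Finset.disjoint_left.1 hd h hy)⟩
    · show R \ R = ∅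
      exact Finset.sdiff_self R
  | m + 1, R, ⟨S, hS, hP, hN⟩, h2 => by
    refine ⟨S, hS, ⟨hP, ?_⟩, J_of_Nn hmono m hN ?_⟩
    · rintro ⟨a, b, hab, hd, ha, hb⟩
      apply h2
      refine ⟨a, fun y hy => hS (hab ▸ Finset.mem_union_left b hy), ha, b, ?_, hb, ?_⟩
      · intro y hy
        rw [Finset.mem_sdiff]
        exact ⟨hS (hab ▸ Finset.mem_union_right a hy), fun h => (Finset.disjoint_left.1 hd h hy)⟩
      · have : (R \ a) \ b = R \ S := by
          rw [← hab]; ext y; simp [Finset.mem_sdiff, Finset.mem_union]; tauto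
        rw [this]; exact hN
    · intro h
      exact h2 ⟨S, hS, hP, h⟩

theorem Nn_of_J : ∀ (m : ℕ) {R : Finset V}, J P R m → Nn P R m
  | 0, _, _ => trivial
  | m + 1, _, ⟨S, hS, hI, hJ⟩ => ⟨S, hS, hI.1, Nn_of_J m hJ⟩

/-- An intermediate set is indivisible. -/
theorem Ind_between (hmono : ∀ s t, P s → s ⊆ t → P t) {A B T : Finset V} (hA : Ind P A)
    (hB : Ind P B) (h1 : A ⊆ T) (h2 : T ⊆ B) : Ind P T := by
  refine ⟨hmono A T hA.1 h1, ?_⟩
  rintro ⟨a, b, hab, hd, ha, hb⟩
  apply hB.2
  refine ⟨a, b ∪ (B \ T), ?_, ?_, ha, hmono b _ hb Finset.subset_union_left⟩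
  · rw [← Finset.union_assoc, hab]
    exact Finset.union_sdiff_of_subset h2
  · rw [Finset.disjoint_union_right]
    refine ⟨hd, ?_⟩
    rw [Finset.disjoint_left]
    intro y hy hy'
    rw [Finset.mem_sdiff] at hy'
    exact hy'.2 (hab ▸ Finset.mem_union_left b hy)

/-- every member contains a minimal member -/
theorem exists_min : ∀ (n : ℕ) (S : Finset V), S.card ≤ n → P S →
    ∃ M, M ⊆ S ∧ P M ∧ ∀ T, T ⊆ M → P T → T = M
  | 0, S, h, hP => by
    have h0 : S = ∅ := Finset.card_eq_zero.1 (Nat.le_zero.1 h)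
    refine ⟨S, Finset.Subset.refl S, hP, ?_⟩
    intro T hT _
    rw [h0] at hT ⊢
    exact Finset.subset_empty.1 hT
  | n + 1, S, h, hP => by
    by_cases hc : ∀ T, T ⊆ S → P T → T = S
    · exact ⟨S, Finset.Subset.refl S, hP, hc⟩
    · push Not at hc
      obtain ⟨T, hT, hPT, hne⟩ := hc
      have hlt : T.card < S.card := Finset.card_lt_card (Finset.ssubset_iff_subset_ne.2 ⟨hT, hne⟩)
      obtain ⟨M, hM, hM2, hM3⟩ := exists_min n T (by omega) hPT
      exact ⟨M, hM.trans hT, hM2, hM3⟩

def MinP (P : Finset V → Prop) (M : Finset V) : Prop := P M ∧ ∀ T, T ⊆ M → P T → T = M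

theorem MinP.ind (h0 : ¬ P ∅) {M : Finset V} (h : MinP P M) : Ind P M := by
  refine ⟨h.1, ?_⟩
  rintro ⟨a, b, hab, hd, ha, hb⟩
  have h1 : a = M := h.2 a (hab ▸ Finset.subset_union_left) ha
  have h2 : b = M := h.2 b (hab ▸ Finset.subset_union_right) hb
  rw [h1, h2, disjoint_self] at hd
  exact h0 (by have := h.1; rwa [hd] at this)

/-- The main step. -/
theorem step (hmono : ∀ s t, P s → s ⊆ t → P t) (h0 : ¬ P ∅) :
    ∀ (n : ℕ) (W : Finset V), W.card ≤ n → ∀ k, J P W k → Nn P W (k + 1) → J P W (k + 1) := by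
  intro n
  induction n with
  | zero =>
    intro W hW k _ hN
    exfalso
    obtain ⟨S, hS, hP, _⟩ := hN
    rw [Finset.card_eq_zero.1 (Nat.le_zero.1 hW)] at hS
    rw [Finset.subset_empty.1 hS] at hP
    exact h0 hP
  | succ n IH =>
    intro W hW k hJ hN
    by_contra hcon
    -- k ≥ 1
    obtain ⟨k', rfl⟩ : ∃ k', k = k' + 1 := by
      cases k with
      | zero =>
        exfalso
        have hW0 : W = ∅ := hJ
        obtain ⟨S, hS, hP, _⟩ := hN
        rw [hW0] at hS
        rw [Finset.subset_empty.1 hS] at hP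
        exact h0 hP
      | succ k' => exact ⟨k', rfl⟩
    set k := k' + 1 with hk
    -- (a)
    have ha : ∀ S, S ⊆ W → Ind P S → ¬ J P (W \ S) k := fun S hS hI h => hcon ⟨S, hS, hI, h⟩
    have hb : ∀ S, S ⊆ W → Ind P S → Nn P (W \ S) k → Nn P (W \ S) (k + 1) := by
      intro S hS hI h
      by_contra h'
      exact ha S hS hI (J_of_Nn hmono k' h h')
    -- constancy
    have hc : ∀ (A D : Finset V), Disjoint A D → A ∪ D ⊆ W → Ind P A → Ind P (A ∪ D) →
        (Nn P (W \ A) k ↔ Nn P (W \ (A ∪ D)) k) := by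
      intro A D
      induction D using Finset.induction_on with
      | empty => intro _ _ _ _; rw [Finset.union_empty]
      | insert x D hx ih =>
        intro hd hs hA hAD
        have hd' : Disjoint A D := Finset.disjoint_of_subset_right (Finset.subset_insert x D) hd
        have hsub : A ∪ D ⊆ A ∪ insert x D := Finset.union_subset_union_right (Finset.subset_insert x D)
        have hI : Ind P (A ∪ D) := Ind_between hmono hA hAD Finset.subset_union_left hsub
        rw [ih hd' (hsub.trans hs) hA hI]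
        have hxA : x ∉ A := fun h => Finset.disjoint_left.1 hd h (Finset.mem_insert_self x D)
        have hxAD : x ∉ A ∪ D := by
          rw [Finset.mem_union]; push Not; exact ⟨hxA, hx⟩
        have hxW : x ∈ W := hs (Finset.mem_union_right A (Finset.mem_insert_self x D))
        have heq : W \ (A ∪ D) = insert x (W \ (A ∪ insert x D)) := by
          ext y
          simp only [Finset.mem_sdiff, Finset.mem_union, Finset.mem_insert]
          constructor
          · rintro ⟨h1, h2⟩
            by_cases hy : y = x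
            · exact Or.inl hy
            · right; refine ⟨h1, ?_⟩; tauto
          · rintro (h | ⟨h1, h2⟩)
            · subst h; exact ⟨hxW, by rw [Finset.mem_union] at hxAD; exact hxAD⟩
            · exact ⟨h1, by tauto⟩
        constructor
        · intro h
          have h2 := hb _ (hsub.trans hs) hI h
          rw [heq] at h2
          exact Nn_insert x k h2
        · intro h
          rw [heq]
          exact Nn_mono k (Finset.subset_insert _ _) h
    have hc' : ∀ A B : Finset V, A ⊆ B → B ⊆ W → Ind P A → Ind P B →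
        (Nn P (W \ A) k ↔ Nn P (W \ B) k) := by
      intro A B hAB hBW hA hB
      have h := hc A (B \ A) Finset.disjoint_sdiff (by rwa [Finset.union_sdiff_of_subset hAB]) hA
        (by rwa [Finset.union_sdiff_of_subset hAB])
      rwa [Finset.union_sdiff_of_subset hAB] at h
    -- existence of a low minimal member
    have hG : ∃ M, M ⊆ W ∧ MinP P M ∧ ¬ Nn P (W \ M) k := by
      obtain ⟨S, hS, hI, hJ'⟩ := hJ
      have hlow : ¬ Nn P (W \ S) k := by
        intro h
        have hSne : S.Nonempty := by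
          rw [Finset.nonempty_iff_ne_empty]
          intro h1
          exact h0 (h1 ▸ hI.1)
        have hcard : (W \ S).card ≤ n := by
          have h1 : (W \ S).card < W.card := by
            apply Finset.card_lt_card
            refine Finset.ssubset_iff_subset_ne.2 ⟨Finset.sdiff_subset, ?_⟩
            intro h2
            obtain ⟨y, hy⟩ := hSne
            have h3 := hS hy
            rw [← h2, Finset.mem_sdiff] at h3
            exact h3.2 hy
          omega
        exact ha S hS hI (IH (W \ S) hcard k' hJ' h)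
      obtain ⟨M, hM1, hM2, hM3⟩ := exists_min S.card S le_rfl hI.1
      have hMm : MinP P M := ⟨hM2, hM3⟩
      refine ⟨M, hM1.trans hS, hMm, ?_⟩
      rw [hc' M S hM1 hS (hMm.ind h0) hI]
      exact hlow
    -- existence of a high minimal member
    have hH : ∃ N, N ⊆ W ∧ MinP P N ∧ Nn P (W \ N) k := by
      obtain ⟨S, hS, hP, hN'⟩ := hN
      obtain ⟨M, hM1, hM2, hM3⟩ := exists_min S.card S le_rfl hP
      exact ⟨M, hM1.trans hS, ⟨hM2, hM3⟩, Nn_mono k (Finset.sdiff_subset_sdiff (Finset.Subset.refl W) hM1) hN'⟩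
    -- pairs
    let Q : ℕ → Prop := fun c => ∃ M N : Finset V, M ⊆ W ∧ N ⊆ W ∧ MinP P M ∧ MinP P N ∧
      ¬ Nn P (W \ M) k ∧ Nn P (W \ N) k ∧ (M ∪ N).card = c
    have hQ : ∃ c, Q c := by
      obtain ⟨M, h1, h2, h3⟩ := hG
      obtain ⟨N, h4, h5, h6⟩ := hH
      exact ⟨_, M, N, h1, h4, h2, h5, h3, h6, rfl⟩
    classical
    have hmin : ∀ M N : Finset V, M ⊆ W → N ⊆ W → MinP P M → MinP P N →
      ¬ Nn P (W \ M) k → Nn P (W \ N) k → Nat.find hQ ≤ (M ∪ N).card := by
      intro M N h1 h2 h3 h4 h5 h6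
      exact Nat.find_min' hQ ⟨M, N, h1, h2, h3, h4, h5, h6, rfl⟩
    -- given a set U of card at most the minimum in which a pair lives, two disjoint minimal members
    -- of the same kind cannot both live in it
    have key : ∀ M N : Finset V, M ⊆ W → N ⊆ W → MinP P M → MinP P N →
      ¬ Nn P (W \ M) k → Nn P (W \ N) k → (M ∪ N).card = Nat.find hQ →
      ∀ X, X ⊆ M ∪ N → MinP P X →
        ((¬ Nn P (W \ X) k → M \ N ⊆ X) ∧ (Nn P (W \ X) k → N \ M ⊆ X)) := by
      intro M N h1 h2 h3 h4 h5 h6 h7 X hX hXm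
      have hXW : X ⊆ W := hX.trans (Finset.union_subset h1 h2)
      constructor
      · intro hl
        have h8 := hmin X N hXW h2 hXm h4 hl h6
        have h9 : X ∪ N = M ∪ N := by
          apply Finset.eq_of_subset_of_card_le
          · exact Finset.union_subset hX Finset.subset_union_right
          · omega
        intro y hy
        rw [Finset.mem_sdiff] at hy
        have : y ∈ X ∪ N := by rw [h9]; exact Finset.mem_union_left N hy.1
        rcases Finset.mem_union.1 this with h | h
        · exact h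
        · exact absurd h hy.2
      · intro hh
        have h8 := hmin M X h1 hXW h3 hXm h5 hh
        have h9 : M ∪ X = M ∪ N := by
          apply Finset.eq_of_subset_of_card_le
          · exact Finset.union_subset Finset.subset_union_left hX
          · omega
        intro y hy
        rw [Finset.mem_sdiff] at hy
        have : y ∈ M ∪ X := by rw [h9]; exact Finset.mem_union_right M hy.1
        rcases Finset.mem_union.1 this with h | h
        · exact absurd h hy.2
        · exact h
    obtain ⟨M, N, hMW, hNW, hM, hN', hMl, hNh, hcard⟩ := Nat.find_spec hQ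
    have hMN : M ≠ N := by rintro rfl; exact hMl hNh
    have hMN1 : ¬ M ⊆ N := fun h => hMN (hN'.2 M h hM.1)
    have hMN2 : ¬ N ⊆ M := fun h => hMN (hM.2 N h hN'.1).symm
    have hU : M ∪ N ⊆ W := Finset.union_subset hMW hNW
    -- the union is divisible
    have hdiv : ∃ X Y : Finset V, X ⊆ M ∪ N ∧ Y ⊆ M ∪ N ∧ MinP P X ∧ MinP P Y ∧ Disjoint X Y := by
      by_contra hno
      have hI : Ind P (M ∪ N) := by
        refine ⟨hmono M _ hM.1 Finset.subset_union_left, ?_⟩
        rintro ⟨a, b, hab, hd, ha', hb'⟩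
        obtain ⟨X, hX1, hX2, hX3⟩ := exists_min a.card a le_rfl ha'
        obtain ⟨Y, hY1, hY2, hY3⟩ := exists_min b.card b le_rfl hb'
        apply hno
        refine ⟨X, Y, hX1.trans (hab ▸ Finset.subset_union_left),
          hY1.trans (hab ▸ Finset.subset_union_right), ⟨hX2, hX3⟩, ⟨hY2, hY3⟩, ?_⟩
        exact Finset.disjoint_of_subset_left hX1 (Finset.disjoint_of_subset_right hY1 hd)
      have e1 := hc' M (M ∪ N) Finset.subset_union_left hU (hM.ind h0) hI
      have e2 := hc' N (M ∪ N) Finset.subset_union_right hU (hN'.ind h0) hI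
      exact hMl (e1.2 (e2.1 hNh))
    obtain ⟨X, Y, hX, hY, hXm, hYm, hXY⟩ := hdiv
    -- a disjoint pair of different kinds
    obtain ⟨A, B, hA, hB, hAm, hBm, hAB, hAl, hBh⟩ : ∃ A B : Finset V, A ⊆ M ∪ N ∧ B ⊆ M ∪ N ∧
        MinP P A ∧ MinP P B ∧ Disjoint A B ∧ ¬ Nn P (W \ A) k ∧ Nn P (W \ B) k := by
      have kX := key M N hMW hNW hM hN' hMl hNh hcard X hX hXm
      have kY := key M N hMW hNW hM hN' hMl hNh hcard Y hY hYm
      by_cases hx : Nn P (W \ X) k
      · by_cases hy : Nn P (W \ Y) k
        · exfalso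
          apply hMN2
          intro z hz
          by_contra hzM
          have hz' : z ∈ N \ M := Finset.mem_sdiff.2 ⟨hz, hzM⟩
          exact Finset.disjoint_left.1 hXY (kX.2 hx hz') (kY.2 hy hz')
        · exact ⟨Y, X, hY, hX, hYm, hXm, hXY.symm, hy, hx⟩
      · by_cases hy : Nn P (W \ Y) k
        · exact ⟨X, Y, hX, hY, hXm, hYm, hXY, hx, hy⟩
        · exfalso
          apply hMN1
          intro z hz
          by_contra hzN
          have hz' : z ∈ M \ N := Finset.mem_sdiff.2 ⟨hz, hzN⟩
          exact Finset.disjoint_left.1 hXY (kX.1 hx hz') (kY.1 hy hz')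
    have hAW : A ⊆ W := hA.trans hU
    have hBW : B ⊆ W := hB.trans hU
    have hABcard : (A ∪ B).card = Nat.find hQ := by
      apply le_antisymm
      · rw [← hcard]; exact Finset.card_le_card (Finset.union_subset hA hB)
      · exact hmin A B hAW hBW hAm hBm hAl hBh
    have kAB := key A B hAW hBW hAm hBm hAl hBh hABcard
    have hAne : A.Nonempty := by
      rw [Finset.nonempty_iff_ne_empty]; intro h1; exact h0 (h1 ▸ hAm.1)
    have hBne : B.Nonempty := by
      rw [Finset.nonempty_iff_ne_empty]; intro h1; exact h0 (h1 ▸ hBm.1)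
    obtain ⟨x, hx⟩ := hAne
    have hxB : x ∉ B := fun h => Finset.disjoint_left.1 hAB hx h
    set S := (A ∪ B).erase x with hSdef
    have hBS : B ⊆ S := by
      intro y hy
      rw [hSdef, Finset.mem_erase]
      exact ⟨fun h => hxB (h ▸ hy), Finset.mem_union_right A hy⟩
    have hSW : S ⊆ W := (Finset.erase_subset _ _).trans (Finset.union_subset hAW hBW)
    have hIS : Ind P S := by
      refine ⟨hmono B S hBm.1 hBS, ?_⟩
      rintro ⟨a, b, hab, hd, ha', hb'⟩
      obtain ⟨X', hX1, hX2, hX3⟩ := exists_min a.card a le_rfl ha'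
      obtain ⟨Y', hY1, hY2, hY3⟩ := exists_min b.card b le_rfl hb'
      have hXs : X' ⊆ S := hX1.trans (hab ▸ Finset.subset_union_left)
      have hYs : Y' ⊆ S := hY1.trans (hab ▸ Finset.subset_union_right)
      have hd' : Disjoint X' Y' :=
        Finset.disjoint_of_subset_left hX1 (Finset.disjoint_of_subset_right hY1 hd)
      have hxS : x ∉ S := by rw [hSdef]; exact Finset.notMem_erase x _
      have hall : ∀ Z, Z ⊆ S → MinP P Z → B ⊆ Z := by
        intro Z hZ hZm
        have kZ := kAB Z (hZ.trans (Finset.erase_subset _ _)) hZm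
        by_cases hz : Nn P (W \ Z) k
        · intro y hy
          exact kZ.2 hz (Finset.mem_sdiff.2 ⟨hy, fun h => Finset.disjoint_left.1 hAB h hy⟩)
        · exfalso
          exact hxS (hZ (kZ.1 hz (Finset.mem_sdiff.2 ⟨hx, hxB⟩)))
      obtain ⟨y, hy⟩ := hBne
      exact Finset.disjoint_left.1 hd' (hall X' hXs ⟨hX2, hX3⟩ hy) (hall Y' hYs ⟨hY2, hY3⟩ hy)
    have e1 := (hc' B S hBS hSW (hBm.ind h0) hIS).1 hBh
    have e2 := hb S hSW hIS e1
    have heq : W \ S ⊆ insert x (W \ (A ∪ B)) := by
      intro y hy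
      rw [Finset.mem_sdiff] at hy
      rw [Finset.mem_insert, Finset.mem_sdiff]
      by_cases hyx : y = x
      · exact Or.inl hyx
      · right
        refine ⟨hy.1, fun h => hy.2 ?_⟩
        rw [hSdef, Finset.mem_erase]
        exact ⟨hyx, h⟩
    have e3 := Nn_insert x k (Nn_mono (k + 1) heq e2)
    exact hAl (Nn_mono k (Finset.sdiff_subset_sdiff (Finset.Subset.refl W) Finset.subset_union_left) e3)

/-- Interpolation. -/
theorem interp (hmono : ∀ s t, P s → s ⊆ t → P t) (h0 : ¬ P ∅) (W : Finset V) (a d : ℕ)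
    (ha : J P W a) (hd : Nn P W d) : ∀ k, a ≤ k → k ≤ d → J P W k := by
  intro k hak
  induction k, hak using Nat.le_induction with
  | base => intro _; exact ha
  | succ m hm ih =>
    intro h
    have h1 : Nn P W (m + 1) := by
      have hdown : ∀ (j i : ℕ) (R : Finset V), Nn P R (i + j) → Nn P R i := by
        intro j i
        induction i with
        | zero => intro R _; trivial
        | succ i ih2 =>
          intro R hR
          rw [Nat.succ_add] at hR
          obtain ⟨S, hS, hP, hN⟩ := hR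
          exact ⟨S, hS, hP, ih2 _ hN⟩
      obtain ⟨j, rfl⟩ := Nat.exists_eq_add_of_le h
      exact hdown j (m + 1) W hd
    exact step hmono h0 W.card W le_rfl m (ih (by omega)) h1

end Q258.Interp
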