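import Pool.Agent.Q258.Interp

/-!
Translation between `Finpartition`s and the predicates `J`, `Nn`.
-/

namespace Q258.Interp

variable {V : Type*} [DecidableEq V] {P : Finset V → Prop}

theorem J_of_family (F : Finset (Finset V)) :
    (F : Set (Finset V)).PairwiseDisjoint id → (∀ D ∈ F, Ind P D) →
      J P (F.biUnion id) F.card := by
  induction F using Finset.induction_on with
  | empty => intro _ _; rfl
  | insert D F hD ih =>
    intro hdis hall
    rw [Finset.card_insert_of_notMem hD]
    have hsub : (F : Set (Finset V)) ⊆ ((insert D F : Finset (Finset V)) : Set (Finset V)) := by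
      intro x hx; exact Finset.mem_coe.2 (Finset.mem_insert_of_mem (Finset.mem_coe.1 hx))
    have h1 := ih (hdis.subset hsub) (fun E hE => hall E (Finset.mem_insert_of_mem hE))
    refine ⟨D, ?_, hall D (Finset.mem_insert_self D F), ?_⟩
    · intro y hy
      exact Finset.mem_biUnion.2 ⟨D, Finset.mem_insert_self D F, hy⟩
    · have heq : (insert D F).biUnion id \ D = F.biUnion id := by
        ext y
        simp only [Finset.mem_sdiff, Finset.mem_biUnion, Finset.mem_insert, id]
        constructor
        · rintro ⟨⟨E, hE | hE, hy⟩, hn⟩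
          · subst hE; exact absurd hy hn
          · exact ⟨E, hE, hy⟩
        · rintro ⟨E, hE, hy⟩
          refine ⟨⟨E, Or.inr hE, hy⟩, fun hyD => ?_⟩
          have hne : D ≠ E := by rintro rfl; exact hD hE
          have hdd : Disjoint (id D) (id E) :=
            hdis (Finset.mem_coe.2 (Finset.mem_insert_self D F))
              (Finset.mem_coe.2 (Finset.mem_insert_of_mem hE)) hne
          exact Finset.disjoint_left.1 hdd hyD hy
      rw [heq]; exact h1

theorem Nn_of_family (F : Finset (Finset V)) :
    (F : Set (Finset V)).PairwiseDisjoint id → (∀ D ∈ F, P D) →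
      Nn P (F.biUnion id) F.card := by
  induction F using Finset.induction_on with
  | empty => intro _ _; trivial
  | insert D F hD ih =>
    intro hdis hall
    rw [Finset.card_insert_of_notMem hD]
    have hsub : (F : Set (Finset V)) ⊆ ((insert D F : Finset (Finset V)) : Set (Finset V)) := by
      intro x hx; exact Finset.mem_coe.2 (Finset.mem_insert_of_mem (Finset.mem_coe.1 hx))
    have h1 := ih (hdis.subset hsub) (fun E hE => hall E (Finset.mem_insert_of_mem hE))
    refine ⟨D, ?_, hall D (Finset.mem_insert_self D F), ?_⟩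
    · intro y hy
      exact Finset.mem_biUnion.2 ⟨D, Finset.mem_insert_self D F, hy⟩
    · refine Nn_mono _ ?_ h1
      intro y hy
      rw [Finset.mem_biUnion] at hy
      obtain ⟨E, hE, hy⟩ := hy
      rw [Finset.mem_sdiff]
      refine ⟨Finset.mem_biUnion.2 ⟨E, Finset.mem_insert_of_mem hE, hy⟩, fun hyD => ?_⟩
      have hne : D ≠ E := by rintro rfl; exact hD hE
      have hdd : Disjoint (id D) (id E) :=
        hdis (Finset.mem_coe.2 (Finset.mem_insert_self D F))
          (Finset.mem_coe.2 (Finset.mem_insert_of_mem hE)) hne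
      exact Finset.disjoint_left.1 hdd hyD hy

theorem family_of_J (h0 : ¬ P ∅) : ∀ (m : ℕ) (W : Finset V), J P W m →
    ∃ F : Finset (Finset V), F.card = m ∧ (F : Set (Finset V)).PairwiseDisjoint id ∧
      F.biUnion id = W ∧ ∀ D ∈ F, Ind P D
  | 0, W, h => by
    have hW : W = ∅ := h
    refine ⟨∅, rfl, by simp, by simp [hW], by simp⟩
  | m + 1, W, ⟨S, hS, hI, hJ⟩ => by
    obtain ⟨F, hF1, hF2, hF3, hF4⟩ := family_of_J h0 m _ hJ
    have hsubF : ∀ D ∈ F, D ⊆ W \ S := by
      intro D hD y hy
      rw [← hF3]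
      exact Finset.mem_biUnion.2 ⟨D, hD, hy⟩
    have hSF : S ∉ F := by
      intro h
      have h1 := hsubF S h
      have h2 : S = ∅ := by
        rw [Finset.eq_empty_iff_forall_notMem]
        intro y hy
        exact (Finset.mem_sdiff.1 (h1 hy)).2 hy
      exact h0 (h2 ▸ hI.1)
    refine ⟨insert S F, ?_, ?_, ?_, ?_⟩
    · rw [Finset.card_insert_of_notMem hSF, hF1]
    · rw [Finset.coe_insert]
      apply Set.PairwiseDisjoint.insert hF2
      intro D hD _
      show Disjoint S D
      rw [Finset.disjoint_left]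
      intro y hy hyD
      exact (Finset.mem_sdiff.1 (hsubF D (Finset.mem_coe.1 hD) hyD)).2 hy
    · rw [Finset.biUnion_insert, hF3]
      exact Finset.union_sdiff_of_subset hS
    · intro D hD
      rcases Finset.mem_insert.1 hD with h | h
      · exact h ▸ hI
      · exact hF4 D h

theorem J_of_finpartition {W : Finset V} (Q : Finpartition W) (h : ∀ D ∈ Q.parts, Ind P D) :
    J P W Q.parts.card := by
  have h1 := J_of_family (P := P) Q.parts Q.disjoint h
  rwa [Q.biUnion_parts] at h1

theorem Nn_of_finpartition {W : Finset V} (Q : Finpartition W) (h : ∀ D ∈ Q.parts, P D) :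
    Nn P W Q.parts.card := by
  have h1 := Nn_of_family (P := P) Q.parts Q.disjoint h
  rwa [Q.biUnion_parts] at h1

theorem finpartition_of_J (h0 : ¬ P ∅) {W : Finset V} {m : ℕ} (h : J P W m) :
    ∃ Q : Finpartition W, Q.parts.card = m ∧ ∀ D ∈ Q.parts, Ind P D := by
  obtain ⟨F, hF1, hF2, hF3, hF4⟩ := family_of_J h0 m W h
  refine ⟨⟨F, Finset.supIndep_iff_pairwiseDisjoint.2 hF2, ?_, ?_⟩, hF1, hF4⟩
  · rw [← hF3, Finset.sup_eq_biUnion]
  · intro hb
    exact h0 (hF4 _ hb).1

/-- Interpolation for partitions of a finite set into indivisible members of a monotone family. -/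
theorem interp_finpartition (hmono : ∀ s t, P s → s ⊆ t → P t) (h0 : ¬ P ∅) {W : Finset V}
    (Q₁ Q₂ : Finpartition W) (h₁ : ∀ D ∈ Q₁.parts, Ind P D) (h₂ : ∀ D ∈ Q₂.parts, P D)
    (k : ℕ) (hk1 : Q₁.parts.card ≤ k) (hk2 : k ≤ Q₂.parts.card) :
    ∃ Q : Finpartition W, Q.parts.card = k ∧ ∀ D ∈ Q.parts, Ind P D :=
  finpartition_of_J h0
    (interp hmono h0 W _ _ (J_of_finpartition Q₁ h₁) (Nn_of_finpartition Q₂ h₂) k hk1 hk2)

end Q258.Interp
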