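import Pool.Agent.Q258.ConnSearch

/-!
# The spiders `S(a, b, 2, 1)`
-/

namespace Pool.Agent.Q258.ConnPart

open SimpleGraph

/-- The edges `i j`, `i < j`, of the spider `S(a, b, 2, 1)` on `0, …, a + b + 3`: the path
`0, …, a + b` with centre `a`, the leg `a + b + 1, a + b + 2` and the leg `a + b + 3`. -/
def spEdge (a b i j : ℕ) : Prop :=
  (j = i + 1 ∧ j ≤ a + b) ∨ (i = a ∧ j = a + b + 1) ∨ (i = a + b + 1 ∧ j = a + b + 2) ∨
    (i = a ∧ j = a + b + 3)

instance (a b i j : ℕ) : Decidable (spEdge a b i j) :=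
  inferInstanceAs (Decidable ((j = i + 1 ∧ j ≤ a + b) ∨ (i = a ∧ j = a + b + 1) ∨
    (i = a + b + 1 ∧ j = a + b + 2) ∨ (i = a ∧ j = a + b + 3)))

theorem spEdge_lt {a b i j : ℕ} (h : spEdge a b i j) : i < j := by
  unfold spEdge at h
  omega

/-- The spider `S(a, b, 2, 1)`. -/
def Sp (a b : ℕ) : SimpleGraph (Fin (a + b + 4)) where
  Adj v w := spEdge a b v w ∨ spEdge a b w v
  symm := ⟨fun _ _ h => h.symm⟩
  loopless := ⟨fun _ h => by
    rcases h with h | h <;> exact absurd (spEdge_lt h) (lt_irrefl _)⟩

instance (a b : ℕ) : DecidableRel (Sp a b).Adj := fun v w =>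
  inferInstanceAs (Decidable (spEdge a b v w ∨ spEdge a b w v))

theorem connected_of_univ {n : ℕ} {T : SimpleGraph (Fin n)}
    (h : (T.induce ((Finset.univ : Finset (Fin n)) : Set (Fin n))).Connected) : T.Connected := by
  rw [Finset.coe_univ] at h
  exact (induceUnivIso T).connected_iff.1 h

theorem Sp_isTree (a b : ℕ) : (Sp a b).IsTree := by
  constructor
  · apply connected_of_univ
    refine connected_of_parent _ _ ⟨0, by omega⟩ (Finset.mem_univ _) ?_
    intro v _ hv
    have hv0 : v.val ≠ 0 := fun h => hv (Fin.ext h)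
    have hvn := v.2
    by_cases h1 : v.val ≤ a + b
    · exact ⟨⟨v.val - 1, by omega⟩, Finset.mem_univ _, by show v.val - 1 < v.val; omega,
        Or.inr (Or.inl ⟨by show v.val = v.val - 1 + 1; omega, h1⟩)⟩
    · by_cases h2 : v.val = a + b + 2
      · exact ⟨⟨a + b + 1, by omega⟩, Finset.mem_univ _, by show a + b + 1 < v.val; omega,
          Or.inr (Or.inr (Or.inr (Or.inl ⟨rfl, h2⟩)))⟩
      · refine ⟨⟨a, by omega⟩, Finset.mem_univ _, by show a < v.val; omega, Or.inr ?_⟩
        show spEdge a b a v.val
        unfold spEdge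
        omega
  · apply isAcyclic_of_parent
    intro v w w' h1 h2 h3 h4
    have h1' : w.val < v.val := h1
    have h2' : w'.val < v.val := h2
    have k3 : spEdge a b w v := by
      rcases h3 with h | h
      · have := spEdge_lt h
        omega
      · exact h
    have k4 : spEdge a b w' v := by
      rcases h4 with h | h
      · have := spEdge_lt h
        omega
      · exact h
    apply Fin.ext
    unfold spEdge at k3 k4
    omega

theorem eq_zero_of_sum {M : Multiset ℕ} (h : ∀ p ∈ M, 1 ≤ p) (h0 : M.sum = 0) : M = 0 := by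
  apply Multiset.eq_zero_of_forall_notMem
  intro p hp
  have h1 := h p hp
  have h2 := Multiset.single_le_sum (fun x _ => Nat.zero_le x) p hp
  omega

theorem Sp_conn (a b : ℕ) (s : ℕ) (hs : dc s = ![a, b, 2, 1, 0, 0, 0]) (hk : kd s = 0)
    (hsearch : ∀ m, 1 ≤ m → m ≤ a + b + 4 → good m 0 32 130 m (a + b + 4 - m) [s] = true)
    (A : Multiset ℕ) (hApos : ∀ p ∈ A, 1 ≤ p) (hAsum : A.sum = a + b + 4) :
    CP (Sp a b) Finset.univ A := by
  have hne : A ≠ 0 := by
    intro h
    rw [h] at hAsum
    simp at hAsum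
  obtain ⟨m, M, hM, hmax⟩ := exists_max_cons hne
  have hsum : m + M.sum = a + b + 4 := by
    rw [hM, Multiset.sum_cons] at hAsum
    exact hAsum
  have hpos : ∀ p ∈ M, 1 ≤ p := by
    intro p hp
    apply hApos
    rw [hM]
    exact Multiset.mem_cons_of_mem hp
  have hm1 : 1 ≤ m := by
    apply hApos
    rw [hM]
    exact Multiset.mem_cons_self m M
  obtain ⟨t, ht, c', hc', -⟩ := good_sound m 0 32 130 m (a + b + 4 - m) [s]
    (hsearch m hm1 (by omega)) (by
      intro t ht
      rw [List.mem_singleton] at ht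
      rw [ht]
      exact Or.inl hk) M (fun p hp => ⟨hpos p hp, hmax p hp⟩) (by omega)
  rw [List.mem_singleton] at ht
  subst ht
  rw [hs] at hc'
  obtain ⟨L, hL, hc⟩ := hc'.split
  have hLpos : ∀ i, ∀ p ∈ L i, 1 ≤ p := by
    intro i p hp
    apply hpos
    rw [← hL]
    exact Multiset.mem_of_le (Finset.single_le_sum (f := L) (fun _ _ => Multiset.zero_le _)
      (Finset.mem_univ i)) hp
  have c0 := hc 0
  have c1 := hc 1
  have c2 := hc 2
  have c3 := hc 3
  have c4 := hc 4
  have c5 := hc 5
  have c6 := hc 6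
  simp at c0 c1 c2 c3 c4 c5 c6
  have z4 := eq_zero_of_sum (hLpos 4) c4.1
  have z5 := eq_zero_of_sum (hLpos 5) c5.1
  have z6 := eq_zero_of_sum (hLpos 6) c6.1
  have hMs : m ::ₘ M = L 0 + (L 1 + (L 2 + (L 3 + {m}))) := by
    rw [← hL, Fin.sum_univ_seven, z4, z5, z6, add_zero, add_zero, add_zero,
      ← Multiset.singleton_add]
    abel
  have hMsum : m + ((L 0).sum + (L 1).sum + (L 2).sum + (L 3).sum) = a + b + 4 := by
    rw [← hsum, ← hL, Fin.sum_univ_seven, z4, z5, z6]
    simp
  rw [hM, hMs]
  -- the regions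
  have hU : (Finset.univ : Finset (Fin (a + b + 4))) = I 0 (a + b + 1) ∪
      (I (a + b + 1) (a + b + 3) ∪ I (a + b + 3) (a + b + 4)) := by
    ext v
    simp only [Finset.mem_univ, Finset.mem_union, mem_I, true_iff]
    have := v.2
    omega
  rw [hU]
  have adj1 : ∀ lo hi : ℕ, hi ≤ a + b + 1 → ∀ v w : Fin (a + b + 4), lo ≤ v.val →
      v.val + 1 = w.val → w.val < hi → (Sp a b).Adj v w := by
    intro lo hi h1 v w h2 h3 h4
    left
    left
    omega
  have adj2 : ∀ lo hi : ℕ, a + b + 1 ≤ lo → hi ≤ a + b + 3 → ∀ v w : Fin (a + b + 4),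
      lo ≤ v.val → v.val + 1 = w.val → w.val < hi → (Sp a b).Adj v w := by
    intro lo hi h1 h1' v w h2 h3 h4
    left
    right
    right
    left
    omega
  have hdis : ∀ (x y : ℕ) (Z : Finset (Fin (a + b + 4))),
      (∀ v ∈ Z, v.val < x ∨ y ≤ v.val) → Disjoint (I x y) Z := by
    intro x y Z hZ
    rw [Finset.disjoint_left]
    intro v hv hvZ
    rw [mem_I] at hv
    have := hZ v hvZ
    omega
  -- cutting off the blocks in the legs
  refine CP.left (by omega) (L 0) (hLpos 0) (adj1 _ _ le_rfl) (by omega) (hdis _ _ _ ?_) ?_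
  · intro v hv
    simp only [Finset.mem_union, mem_I] at hv
    omega
  refine CP.right (L 1) (by omega) (hLpos 1) (adj1 _ _ le_rfl) (by omega) (hdis _ _ _ ?_) ?_
  · intro v hv
    simp only [Finset.mem_union, mem_I] at hv
    omega
  rw [Finset.union_left_comm]
  refine CP.right (L 2) (by omega) (hLpos 2) (adj2 _ _ le_rfl le_rfl) (by omega)
    (hdis _ _ _ ?_) ?_
  · intro v hv
    simp only [Finset.mem_union, mem_I] at hv
    omega
  rw [← Finset.union_assoc, Finset.union_comm]
  refine CP.right (L 3) (by omega) (hLpos 3) (fun v w h1 h2 h3 => by omega) (by omega)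
    (hdis _ _ _ ?_) ?_
  · intro v hv
    simp only [Finset.mem_union, mem_I] at hv
    omega
  -- the central block
  set B : Finset (Fin (a + b + 4)) := I (a + b + 3) (a + b + 4 - (L 3).sum) ∪
    (I (a + b + 1) (a + b + 3 - (L 2).sum) ∪
      I (0 + (L 0).sum) (a + b + 1 - (L 1).sum)) with hB
  have hcard : B.card = m := by
    rw [hB, Finset.card_union_of_disjoint, Finset.card_union_of_disjoint, card_I, card_I, card_I]
    · omega
    · omega
    · omega
    · omega
    · apply hdis
      intro v hv
      simp only [mem_I] at hv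
      omega
    · apply hdis
      intro v hv
      simp only [Finset.mem_union, mem_I] at hv
      omega
  rw [← hcard]
  apply CP.single
  refine connected_of_parent _ _ ⟨(L 0).sum, by omega⟩ ?_ ?_
  · rw [hB]
    simp only [Finset.mem_union, mem_I]
    right
    right
    omega
  · intro v hv hne
    have hne' : v.val ≠ (L 0).sum := fun h => hne (Fin.ext h)
    rw [hB] at hv
    simp only [Finset.mem_union, mem_I] at hv
    have hcen : (⟨a, by omega⟩ : Fin (a + b + 4)) ∈ B := by
      rw [hB]
      simp only [Finset.mem_union, mem_I]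
      right
      right
      omega
    rcases hv with hv | hv | hv
    · refine ⟨⟨a, by omega⟩, hcen, by show a < v.val; omega, Or.inr ?_⟩
      show spEdge a b a v.val
      unfold spEdge
      omega
    · by_cases h1 : v.val = a + b + 1
      · refine ⟨⟨a, by omega⟩, hcen, by show a < v.val; omega, Or.inr ?_⟩
        show spEdge a b a v.val
        unfold spEdge
        omega
      · refine ⟨⟨a + b + 1, by omega⟩, ?_, by show a + b + 1 < v.val; omega, Or.inr ?_⟩
        · rw [hB]
          simp only [Finset.mem_union, mem_I]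
          right
          left
          omega
        · show spEdge a b (a + b + 1) v.val
          unfold spEdge
          omega
    · refine ⟨⟨v.val - 1, by omega⟩, ?_, by show v.val - 1 < v.val; omega, Or.inr ?_⟩
      · rw [hB]
        simp only [Finset.mem_union, mem_I]
        right
        right
        omega
      · show spEdge a b (v.val - 1) v.val
        unfold spEdge
        omega

theorem ncard_eq_degree {V : Type} [Fintype V] (T : SimpleGraph V) [DecidableRel T.Adj] (v : V) :
    (T.neighborSet v).ncard = T.degree v := by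
  rw [← card_neighborSet_eq_degree, Set.ncard_eq_toFinset_card', Set.toFinset_card]

theorem isMaxDegree_of {V : Type} [Fintype V] (T : SimpleGraph V) [DecidableRel T.Adj] (k : ℕ)
    (h : ∀ v, T.degree v ≤ k) (v : V) (hv : T.degree v = k) : IsMaxDegree T k :=
  ⟨fun w => by rw [ncard_eq_degree]; exact h w, v, by rw [ncard_eq_degree]; exact hv⟩

end Pool.Agent.Q258.ConnPart
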