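import Mathlib.Combinatorics.SimpleGraph.Acyclic
import Mathlib.Combinatorics.Pigeonhole
import Mathlib.Data.Set.Finite.List
import Mathlib.Data.Real.Basic
import Mathlib.SetTheory.Cardinal.NatCard
import Mathlib.Order.Interval.Set.Basic
import Mathlib.Tactic.Linarith
import Mathlib.Tactic.Ring

/-!
The complete `D`-ary tree of depth `N` is not a star-`k`-PCG if `N > k` and `D > 2 k ^ 2`.
-/

namespace Pool.Agent.Q258.StarTree

/-- vertices of the complete `D`-ary tree of depth `N` -/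
abbrev V (D N : ℕ) : Type := {l : List (Fin D) // l.length ≤ N}

/-- the complete `D`-ary tree of depth `N` -/
def T (D N : ℕ) : SimpleGraph (V D N) where
  Adj u v := (∃ a, v.1 = a :: u.1) ∨ (∃ a, u.1 = a :: v.1)
  symm := ⟨fun _ _ h => h.symm⟩
  loopless := ⟨fun v h => by
    rcases h with ⟨a, h⟩ | ⟨a, h⟩ <;> exact absurd (congrArg List.length h) (by simp)⟩

instance (D N : ℕ) : Finite (V D N) := (List.finite_length_le (Fin D) N).to_subtype

def root (D N : ℕ) : V D N := ⟨[], by simp⟩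

lemma reach (D N : ℕ) : ∀ (l : List (Fin D)) (h : l.length ≤ N),
    (T D N).Reachable (root D N) ⟨l, h⟩ := by
  intro l
  induction l with
  | nil => intro h; exact SimpleGraph.Reachable.refl _
  | cons a l ih =>
    intro h
    have h' : l.length ≤ N := by simp only [List.length_cons] at h; omega
    exact (ih h').trans (SimpleGraph.Adj.reachable (Or.inl ⟨a, rfl⟩))

/-- distance at most `N` from the root -/
lemma dist_le (D N : ℕ) : ∀ (l : List (Fin D)) (h : l.length ≤ N),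
    ∃ p : (T D N).Walk (root D N) ⟨l, h⟩, p.length = l.length := by
  intro l
  induction l with
  | nil => intro h; exact ⟨SimpleGraph.Walk.nil, rfl⟩
  | cons a l ih =>
    intro h
    have h' : l.length ≤ N := by simp only [List.length_cons] at h; omega
    obtain ⟨p, hp⟩ := ih h'
    have hadj : (T D N).Adj ⟨l, h'⟩ ⟨a :: l, h⟩ := Or.inl ⟨a, rfl⟩
    refine ⟨p.concat hadj, ?_⟩
    rw [SimpleGraph.Walk.length_concat, hp, List.length_cons]

lemma connected (D N : ℕ) : (T D N).Connected := by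
  have : Nonempty (V D N) := ⟨root D N⟩
  refine ⟨fun u v => ?_⟩
  exact (reach D N u.1 u.2).symm.trans (reach D N v.1 v.2)

/-- the parent -/
def par (D N : ℕ) (v : V D N) : V D N := ⟨v.1.tail, by
  have := v.2
  rw [List.length_tail]; omega⟩

lemma adj_par {D N : ℕ} {v : V D N} (h : v ≠ root D N) : (T D N).Adj v (par D N v) := by
  right
  obtain ⟨l, hl⟩ := v
  cases l with
  | nil => exact absurd rfl h
  | cons a l => exact ⟨a, rfl⟩

lemma isTree (D N : ℕ) : (T D N).IsTree := by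
  rw [SimpleGraph.isTree_iff_connected_and_card]
  refine ⟨connected D N, ?_⟩
  let f : {v : V D N // v ≠ root D N} → (T D N).edgeSet := fun v =>
    ⟨s(v.1, par D N v.1), by
      rw [SimpleGraph.mem_edgeSet]
      exact adj_par v.2⟩
  have hf : Function.Bijective f := by
    constructor
    · intro u v huv
      have h1 : s(u.1, par D N u.1) = s(v.1, par D N v.1) := congrArg Subtype.val huv
      rw [Sym2.eq_iff] at h1
      rcases h1 with ⟨h1, _⟩ | ⟨h1, h2⟩
      · exact Subtype.ext h1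
      · exfalso
        have hu : 0 < u.1.1.length := by
          rw [List.length_pos_iff]
          intro h
          exact u.2 (Subtype.ext h)
        have hv : 0 < v.1.1.length := by
          rw [List.length_pos_iff]
          intro h
          exact v.2 (Subtype.ext h)
        have h3 := congrArg (fun x : V D N => x.1.length) h1
        have h4 := congrArg (fun x : V D N => x.1.length) h2
        simp only [par, List.length_tail] at h3 h4
        omega
    · rintro ⟨e, he⟩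
      induction e using Sym2.ind with
      | _ x y =>
        rw [SimpleGraph.mem_edgeSet] at he
        rcases he with ⟨a, ha⟩ | ⟨a, ha⟩
        · refine ⟨⟨y, ?_⟩, ?_⟩
          · rintro rfl
            exact absurd ha (by simp [root])
          · apply Subtype.ext
            show s(y, par D N y) = s(x, y)
            have : par D N y = x := Subtype.ext (by simp [par, ha])
            rw [this, Sym2.eq_swap]
        · refine ⟨⟨x, ?_⟩, ?_⟩
          · rintro rfl
            exact absurd ha (by simp [root])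
          · apply Subtype.ext
            show s(x, par D N x) = s(x, y)
            have : par D N x = y := Subtype.ext (by simp [par, ha])
            rw [this]
  have h1 := Nat.card_congr (Equiv.ofBijective f hf)
  have h2 := Nat.card_congr (Equiv.optionSubtypeNe (root D N))
  rw [Finite.card_option] at h2
  rw [← h1, ← h2]

/-- the middle one of three children in a window -/
lemma mid {wu w1 w2 w3 wg aj bj al bl : ℝ}
    (h1 : aj ≤ wu + w1) (h3 : wu + w3 ≤ bj)
    (h12 : w1 ≤ w2) (h23 : w2 ≤ w3)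
    (hg1 : al ≤ w2 + wg) (hg2 : w2 + wg ≤ bl)
    (hn1 : ¬ (al ≤ w1 + wg ∧ w1 + wg ≤ bl)) (hn3 : ¬ (al ≤ w3 + wg ∧ w3 + wg ≤ bl)) :
    bl - al < bj - aj := by
  have a1 : w1 + wg < al := by
    by_contra h
    push Not at h
    exact hn1 ⟨h, by linarith⟩
  have a3 : bl < w3 + wg := by
    by_contra h
    push Not at h
    exact hn3 ⟨by linarith, h⟩
  linarith

section
variable {D N k : ℕ} (w : V D N → ℝ) (a b : Fin k → ℝ)
  (hw : ∀ u v : V D N, u ≠ v →
    ((T D N).Adj u v ↔ ∃ i, a i ≤ w u + w v ∧ w u + w v ≤ b i))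

include hw

/-- an edge between a vertex and a child has a type -/
lemma exists_type (u : V D N) (x : Fin D) (h : (x :: u.1).length ≤ N) :
    ∃ i, a i ≤ w u + w ⟨x :: u.1, h⟩ ∧ w u + w ⟨x :: u.1, h⟩ ≤ b i := by
  have hne : u ≠ ⟨x :: u.1, h⟩ := by
    intro h'
    have := congrArg (fun x : V D N => x.1.length) h'
    simp at this
  exact (hw _ _ hne).1 (Or.inl ⟨x, rfl⟩)

/-- types of the edges from the parent, as a function of the child -/
lemma exists_types : ∃ τ : V D N → Option (Fin k), ∀ (u : V D N) (x : Fin D)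
    (h : (x :: u.1).length ≤ N), ∃ i, τ ⟨x :: u.1, h⟩ = some i ∧
      a i ≤ w u + w ⟨x :: u.1, h⟩ ∧ w u + w ⟨x :: u.1, h⟩ ≤ b i := by
  classical
  have key : ∀ v : V D N, ∃ o : Option (Fin k), ∀ (u : V D N) (x : Fin D), v.1 = x :: u.1 →
      ∃ i, o = some i ∧ a i ≤ w u + w v ∧ w u + w v ≤ b i := by
    intro v
    obtain ⟨l, hl⟩ := v
    cases l with
    | nil => exact ⟨none, fun u x h => absurd h (by simp)⟩
    | cons y l =>
      have hl' : l.length ≤ N := by simp only [List.length_cons] at hl; omega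
      obtain ⟨i, hi⟩ := exists_type w a b hw ⟨l, hl'⟩ y hl
      refine ⟨some i, fun u x h => ⟨i, rfl, ?_⟩⟩
      have hu : u = ⟨l, hl'⟩ := by
        apply Subtype.ext
        simp only [List.cons.injEq] at h
        exact h.2.symm
      subst hu
      exact hi
  choose τ hτ using key
  exact ⟨τ, fun u x h => hτ ⟨x :: u.1, h⟩ u x rfl⟩

/-- three children of `u` with the same type, each with a child of type `l` -/
lemma three (u : V D N) (x1 x2 x3 : Fin D) (h1 : (x1 :: u.1).length ≤ N)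
    (h2 : (x2 :: u.1).length ≤ N) (h3 : (x3 :: u.1).length ≤ N) (h12 : x1 ≠ x2) (h23 : x3 ≠ x2)
    (j l : Fin k)
    (hj1 : a j ≤ w u + w ⟨x1 :: u.1, h1⟩) (hj3 : w u + w ⟨x3 :: u.1, h3⟩ ≤ b j)
    (ho1 : w ⟨x1 :: u.1, h1⟩ ≤ w ⟨x2 :: u.1, h2⟩) (ho2 : w ⟨x2 :: u.1, h2⟩ ≤ w ⟨x3 :: u.1, h3⟩)
    (y : Fin D) (hy : (y :: x2 :: u.1).length ≤ N)
    (hg1 : a l ≤ w ⟨x2 :: u.1, h2⟩ + w ⟨y :: x2 :: u.1, hy⟩)
    (hg2 : w ⟨x2 :: u.1, h2⟩ + w ⟨y :: x2 :: u.1, hy⟩ ≤ b l) :
    b l - a l < b j - a j := by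
  have hnot : ∀ (x : Fin D) (hx : (x :: u.1).length ≤ N), x ≠ x2 →
      ¬ (a l ≤ w ⟨x :: u.1, hx⟩ + w ⟨y :: x2 :: u.1, hy⟩ ∧
        w ⟨x :: u.1, hx⟩ + w ⟨y :: x2 :: u.1, hy⟩ ≤ b l) := by
    intro x hx hne h
    have hne' : (⟨x :: u.1, hx⟩ : V D N) ≠ ⟨y :: x2 :: u.1, hy⟩ := by
      intro h'
      have := congrArg (fun x : V D N => x.1.length) h'
      simp at this
    have hadj := (hw _ _ hne').2 ⟨l, h⟩
    rcases hadj with ⟨z, hz⟩ | ⟨z, hz⟩
    · simp only [List.cons.injEq] at hz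
      exact hne hz.2.1.symm
    · have := congrArg List.length hz
      simp at this
  exact mid hj1 hj3 ho1 ho2 hg1 hg2 (hnot x1 h1 h12) (hnot x3 h3 h23)

/-- If `D > 2 k ^ 2` every vertex which is not a leaf has a good child: the widths of the
intervals of all edges from this child to its children are smaller than the width of the
interval of the edge to its parent. -/
lemma exists_good (hD : 2 * (k * k) < D) (τ : V D N → Option (Fin k))
    (hτ : ∀ (u : V D N) (x : Fin D)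
    (h : (x :: u.1).length ≤ N), ∃ i, τ ⟨x :: u.1, h⟩ = some i ∧
      a i ≤ w u + w ⟨x :: u.1, h⟩ ∧ w u + w ⟨x :: u.1, h⟩ ≤ b i)
    (u : V D N) (hu : u.1.length + 1 ≤ N) :
    ∃ (x : Fin D) (i : Fin k), τ ⟨x :: u.1, hu⟩ = some i ∧
      ∀ (y : Fin D) (hy : (y :: x :: u.1).length ≤ N) (j : Fin k),
        τ ⟨y :: x :: u.1, hy⟩ = some j → b j - a j < b i - a i := by
  classical
  by_contra hcon
  push Not at hcon
  -- types of the children
  choose t ht using fun x => hτ u x hu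
  -- bad grandchildren
  choose y hy g hg hwid using fun x => hcon x (t x) (ht x).1
  -- pigeonhole
  have hmap : ∀ x ∈ (Finset.univ : Finset (Fin D)), (t x, g x) ∈ (Finset.univ : Finset (Fin k × Fin k)) :=
    fun _ _ => Finset.mem_univ _
  have hcard : (Finset.univ : Finset (Fin k × Fin k)).card * 2 <
      (Finset.univ : Finset (Fin D)).card := by
    rw [Finset.card_univ, Fintype.card_prod, Fintype.card_fin, Finset.card_univ, Fintype.card_fin]
    omega
  obtain ⟨⟨j, l⟩, _, hfib⟩ := Finset.exists_lt_card_fiber_of_mul_lt_card_of_maps_to hmap hcard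
  rw [Finset.two_lt_card] at hfib
  obtain ⟨x1, hx1, x2, hx2, x3, hx3, h12, h13, h23⟩ := hfib
  simp only [Finset.mem_filter, Finset.mem_univ, true_and, Prod.mk.injEq] at hx1 hx2 hx3
  -- the grandchild of type `l`
  have hgr : ∀ x, t x = j ∧ g x = l →
      a j ≤ w u + w ⟨x :: u.1, hu⟩ ∧ w u + w ⟨x :: u.1, hu⟩ ≤ b j ∧ b j - a j ≤ b l - a l ∧
      ∃ (y : Fin D) (hy : (y :: x :: u.1).length ≤ N),
        a l ≤ w ⟨x :: u.1, hu⟩ + w ⟨y :: x :: u.1, hy⟩ ∧
          w ⟨x :: u.1, hu⟩ + w ⟨y :: x :: u.1, hy⟩ ≤ b l := by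
    rintro x ⟨rfl, rfl⟩
    refine ⟨(ht x).2.1, (ht x).2.2, hwid x, y x, hy x, ?_⟩
    obtain ⟨i, hi, h1, h2⟩ := hτ ⟨x :: u.1, hu⟩ (y x) (hy x)
    rw [hg x] at hi
    simp only [Option.some.injEq] at hi
    subst hi
    exact ⟨h1, h2⟩
  obtain ⟨p1, q1, r1, y1, hy1, s1, s1'⟩ := hgr x1 hx1
  obtain ⟨p2, q2, r2, y2, hy2, s2, s2'⟩ := hgr x2 hx2
  obtain ⟨p3, q3, r3, y3, hy3, s3, s3'⟩ := hgr x3 hx3
  have fin : ∀ {z1 z2 z3 : Fin D}, z1 ≠ z2 → z3 ≠ z2 →
      a j ≤ w u + w ⟨z1 :: u.1, hu⟩ → w u + w ⟨z3 :: u.1, hu⟩ ≤ b j →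
      w ⟨z1 :: u.1, hu⟩ ≤ w ⟨z2 :: u.1, hu⟩ → w ⟨z2 :: u.1, hu⟩ ≤ w ⟨z3 :: u.1, hu⟩ →
      (∃ (y : Fin D) (hy : (y :: z2 :: u.1).length ≤ N),
        a l ≤ w ⟨z2 :: u.1, hu⟩ + w ⟨y :: z2 :: u.1, hy⟩ ∧
          w ⟨z2 :: u.1, hu⟩ + w ⟨y :: z2 :: u.1, hy⟩ ≤ b l) → False := by
    rintro z1 z2 z3 n12 n32 e1 e2 e3 e4 ⟨y, hy, e5, e6⟩
    have := three w a b hw u z1 z2 z3 hu hu hu n12 n32 j l e1 e2 e3 e4 y hy e5 e6
    linarith
  rcases le_total (w ⟨x1 :: u.1, hu⟩) (w ⟨x2 :: u.1, hu⟩) with c1 | c1 <;>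
    rcases le_total (w ⟨x2 :: u.1, hu⟩) (w ⟨x3 :: u.1, hu⟩) with c2 | c2 <;>
    rcases le_total (w ⟨x1 :: u.1, hu⟩) (w ⟨x3 :: u.1, hu⟩) with c3 | c3
  · exact fin h12 h23.symm p1 q3 c1 c2 ⟨y2, hy2, s2, s2'⟩
  · exact fin h12 h23.symm p1 q3 c1 c2 ⟨y2, hy2, s2, s2'⟩
  · exact fin h13 h23 p1 q2 c3 c2 ⟨y3, hy3, s3, s3'⟩
  · exact fin h13.symm h12.symm p3 q2 c3 c1 ⟨y1, hy1, s1, s1'⟩
  · exact fin h12.symm h13.symm p2 q3 c1 c3 ⟨y1, hy1, s1, s1'⟩
  · exact fin h23 h13 p2 q1 c2 c3 ⟨y3, hy3, s3, s3'⟩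
  · exact fin h23.symm h12 p3 q1 c2 c1 ⟨y2, hy2, s2, s2'⟩
  · exact fin h23.symm h12 p3 q1 c2 c1 ⟨y2, hy2, s2, s2'⟩

/-- **The tree is not representable.** -/
theorem not_rep (hD : 2 * (k * k) < D) (hN : k < N) : False := by
  classical
  obtain ⟨τ, hτ⟩ := exists_types w a b hw
  -- the number of intervals which are shorter than the `i`-th
  let m : Fin k → ℕ := fun i => (Finset.univ.filter (fun j => b j - a j < b i - a i)).card
  have hm : ∀ i j, b j - a j < b i - a i → m j + 1 ≤ m i := by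
    intro i j hij
    apply Finset.card_lt_card
    rw [Finset.ssubset_iff_of_subset]
    · refine ⟨j, by simpa using hij, by simp⟩
    · intro l hl
      simp only [Finset.mem_filter, Finset.mem_univ, true_and] at hl ⊢
      linarith
  have hmk : ∀ i, m i + 1 ≤ k := by
    intro i
    have : m i < (Finset.univ : Finset (Fin k)).card := by
      apply Finset.card_lt_card
      rw [Finset.ssubset_iff_of_subset (Finset.subset_univ _)]
      exact ⟨i, Finset.mem_univ _, by simp⟩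
    rw [Finset.card_univ, Fintype.card_fin] at this
    omega
  -- the path
  have path : ∀ n : ℕ, n + 1 ≤ N → ∃ (u : V D N) (x : Fin D) (hx : (x :: u.1).length ≤ N) (i : Fin k),
      u.1.length = n ∧ τ ⟨x :: u.1, hx⟩ = some i ∧ m i + (n + 1) ≤ k ∧
      ∀ (y : Fin D) (hy : (y :: x :: u.1).length ≤ N) (j : Fin k),
        τ ⟨y :: x :: u.1, hy⟩ = some j → b j - a j < b i - a i := by
    intro n
    induction n with
    | zero =>
      intro h
      obtain ⟨x, i, h1, h2⟩ := exists_good w a b hw hD τ hτ (root D N) (by simpa [root] using h)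
      exact ⟨root D N, x, _, i, rfl, h1, hmk i, h2⟩
    | succ n ih =>
      intro h
      obtain ⟨u, x, hx, i, h1, h2, h3, h4⟩ := ih (by omega)
      have hlen : (x :: u.1).length + 1 ≤ N := by
        rw [List.length_cons, h1]; omega
      obtain ⟨y, j, h5, h6⟩ := exists_good w a b hw hD τ hτ ⟨x :: u.1, hx⟩ hlen
      refine ⟨⟨x :: u.1, hx⟩, y, hlen, j, by rw [List.length_cons, h1], h5, ?_, h6⟩
      have h7 := h4 y hlen j h5
      have h8 := hm i j h7
      omega
  obtain ⟨u, x, hx, i, h1, h2, h3, h4⟩ := path k (by omega)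
  omega

end

end Pool.Agent.Q258.StarTree
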