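import Mathlib.Data.Real.Basic
import Mathlib.Algebra.Order.Archimedean.Real.Basic
import Mathlib.Algebra.Order.Floor.Ring
import Mathlib.Algebra.Order.Floor.Semiring
import Mathlib.Combinatorics.SimpleGraph.Basic
import Mathlib.Tactic.Linarith
import Mathlib.Tactic.FieldSimp
import Mathlib.Tactic.Positivity
import Mathlib.Tactic.Push
import Mathlib.Tactic.Ring

namespace Pool.Agent.Q258.Thresh

/-- The set of rank sums that give an edge. -/
def E (t x : ℝ) : Prop := (-1 ≤ x ∧ x < 1) ∨ t ≤ x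

lemma conv {t k x y z : ℝ} (hxy : x ≤ y) (hyz : y ≤ z) (hs : z - x < 2)
    (hx : ¬ E t (k - x)) (hz : ¬ E t (k - z)) (hy : E t (k - y)) : False := by
  unfold E at *
  push Not at hx hz
  obtain ⟨hx1, hx2⟩ := hx
  obtain ⟨hz1, hz2⟩ := hz
  rcases hy with ⟨hy1, hy2⟩ | hy
  · rcases lt_or_ge (k - z) (-1) with h | h
    · rcases lt_or_ge (k - x) (-1) with h' | h'
      · linarith
      · have := hx1 h'
        linarith
    · have := hz1 h
      linarith
  · linarith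

lemma gadget {t k1 k2 k3 k4 c1 c2 c3 u : ℝ}
    (s : ∀ x ∈ ({c1, c2, c3, u} : Set ℝ), ∀ y ∈ ({c1, c2, c3, u} : Set ℝ), x - y < 2)
    (h11 : E t (k1 - c1)) (h12 : ¬ E t (k1 - c2)) (_h13 : ¬ E t (k1 - c3)) (h1u : ¬ E t (k1 - u))
    (h21 : E t (k2 - c1)) (h22 : E t (k2 - c2)) (h23 : ¬ E t (k2 - c3)) (h2u : ¬ E t (k2 - u))
    (_h31 : ¬ E t (k3 - c1)) (h32 : ¬ E t (k3 - c2)) (h33 : E t (k3 - c3)) (h3u : ¬ E t (k3 - u))
    (h41 : ¬ E t (k4 - c1)) (h42 : E t (k4 - c2)) (h43 : E t (k4 - c3)) (h4u : ¬ E t (k4 - u)) :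
    False := by
  have m1 : c1 ∈ ({c1, c2, c3, u} : Set ℝ) := by simp
  have m2 : c2 ∈ ({c1, c2, c3, u} : Set ℝ) := by simp
  have m3 : c3 ∈ ({c1, c2, c3, u} : Set ℝ) := by simp
  have mu : u ∈ ({c1, c2, c3, u} : Set ℝ) := by simp
  have a1 : ¬ (c2 ≤ c1 ∧ c1 ≤ u) := fun h => conv h.1 h.2 (s _ mu _ m2) h12 h1u h11
  have a2 : ¬ (u ≤ c1 ∧ c1 ≤ c2) := fun h => conv h.1 h.2 (s _ m2 _ mu) h1u h12 h11
  have a3 : ¬ (c3 ≤ c1 ∧ c1 ≤ u) := fun h => conv h.1 h.2 (s _ mu _ m3) h23 h2u h21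
  have a4 : ¬ (u ≤ c1 ∧ c1 ≤ c3) := fun h => conv h.1 h.2 (s _ m3 _ mu) h2u h23 h21
  have a5 : ¬ (c3 ≤ c2 ∧ c2 ≤ u) := fun h => conv h.1 h.2 (s _ mu _ m3) h23 h2u h22
  have a6 : ¬ (u ≤ c2 ∧ c2 ≤ c3) := fun h => conv h.1 h.2 (s _ m3 _ mu) h2u h23 h22
  have a7 : ¬ (c2 ≤ c3 ∧ c3 ≤ u) := fun h => conv h.1 h.2 (s _ mu _ m2) h32 h3u h33
  have a8 : ¬ (u ≤ c3 ∧ c3 ≤ c2) := fun h => conv h.1 h.2 (s _ m2 _ mu) h3u h32 h33
  have a9 : ¬ (c1 ≤ c2 ∧ c2 ≤ u) := fun h => conv h.1 h.2 (s _ mu _ m1) h41 h4u h42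
  have a10 : ¬ (u ≤ c2 ∧ c2 ≤ c1) := fun h => conv h.1 h.2 (s _ m1 _ mu) h4u h41 h42
  have a11 : ¬ (c1 ≤ c3 ∧ c3 ≤ u) := fun h => conv h.1 h.2 (s _ mu _ m1) h41 h4u h43
  have a12 : ¬ (u ≤ c3 ∧ c3 ≤ c1) := fun h => conv h.1 h.2 (s _ m1 _ mu) h4u h41 h43
  rcases le_total c1 u with b1 | b1 <;> rcases le_total c2 u with b2 | b2 <;>
    rcases le_total c3 u with b3 | b3 <;> rcases le_total c1 c2 with b4 | b4 <;>
    rcases le_total c2 c3 with b5 | b5 <;> rcases le_total c1 c3 with b6 | b6 <;>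
    first
      | exact a1 ⟨by assumption, by assumption⟩
      | exact a2 ⟨by assumption, by assumption⟩
      | exact a3 ⟨by assumption, by assumption⟩
      | exact a4 ⟨by assumption, by assumption⟩
      | exact a5 ⟨by assumption, by assumption⟩
      | exact a6 ⟨by assumption, by assumption⟩
      | exact a7 ⟨by assumption, by assumption⟩
      | exact a8 ⟨by assumption, by assumption⟩
      | exact a9 ⟨by assumption, by assumption⟩
      | exact a10 ⟨by assumption, by assumption⟩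
      | exact a11 ⟨by assumption, by assumption⟩
      | exact a12 ⟨by assumption, by assumption⟩

/-- Realisation of the bipartite pattern (rows `i`, columns `j`, indices in `[-K, K]`). -/
structure Sys (N T K : ℤ) (t : ℝ) (b c : ℤ → ℝ) : Prop where
  hN : 2 ≤ N
  hT : N + 3 ≤ T
  ht : 1 < t
  H : ∀ i j, -K ≤ i → i ≤ K → -K ≤ j → j ≤ K →
    (((-N ≤ j - i ∧ j - i < N) ∨ T ≤ j - i) ↔ E t (b j - c i))

variable {N T K : ℤ} {t : ℝ} {b c : ℤ → ℝ}

lemma Sys.adj (S : Sys N T K t b c) {i j : ℤ} (h1 : -K ≤ i ∧ i ≤ K ∧ -K ≤ j ∧ j ≤ K)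
    (h : (-N ≤ j - i ∧ j - i < N) ∨ T ≤ j - i) : E t (b j - c i) :=
  (S.H i j h1.1 h1.2.1 h1.2.2.1 h1.2.2.2).1 h

lemma Sys.nadj (S : Sys N T K t b c) {i j : ℤ} (h1 : -K ≤ i ∧ i ≤ K ∧ -K ≤ j ∧ j ≤ K)
    (h : ¬ ((-N ≤ j - i ∧ j - i < N) ∨ T ≤ j - i)) : ¬ E t (b j - c i) :=
  fun h' => h ((S.H i j h1.1 h1.2.1 h1.2.2.1 h1.2.2.2).2 h')

lemma Sys.flip (S : Sys N T K t b c) : Sys N T K t (fun j => - c (-j)) (fun i => - b (-i)) := by
  refine ⟨S.hN, S.hT, S.ht, ?_⟩
  intro i j h1 h2 h3 h4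
  have := S.H (-j) (-i) (by omega) (by omega) (by omega) (by omega)
  have e1 : (-i - -j : ℤ) = j - i := by ring
  have e2 : b (-i) - c (-j) = - c (-j) - - b (-i) := by ring
  rw [e1, e2] at this
  exact this

lemma Sys.col (S : Sys N T K t b c) {j j' : ℤ} (hδ : j + 3 ≤ j') (hlo : -K ≤ j - T + 1)
    (hhi : j' + N ≤ K) : b j < b j' := by
  by_contra hcon
  push Not at hcon
  have hN := S.hN
  have hT := S.hT
  have key : ∀ i, E t (b j' - c i) → ¬ E t (b j - c i) → b j' - 1 < c i ∧ c i ≤ b j' + 1 := by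
    intro i h1 h2
    unfold E at h1 h2
    push Not at h2
    rcases h1 with h1 | h1
    · constructor <;> linarith [h1.1, h1.2]
    · exfalso; linarith [h2.2]
  have r1 := key (j - T + 1) (S.adj (by omega) (by omega)) (S.nadj (by omega) (by omega))
  have r2 := key (j - T + 2) (S.adj (by omega) (by omega)) (S.nadj (by omega) (by omega))
  have r3 := key (j - T + 3) (S.adj (by omega) (by omega)) (S.nadj (by omega) (by omega))
  have r4 := key (j' + N) (S.adj (by omega) (by omega)) (S.nadj (by omega) (by omega))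
  refine gadget (t := t) (k1 := b (j + 1)) (k2 := b (j + 2)) (k3 := b (j - T + 2 + N))
    (k4 := b (j - T + 1 + N)) (c1 := c (j - T + 1)) (c2 := c (j - T + 2)) (c3 := c (j - T + 3))
    (u := c (j' + N)) ?_
    (S.adj (by omega) (by omega)) (S.nadj (by omega) (by omega))
    (S.nadj (by omega) (by omega)) (S.nadj (by omega) (by omega))
    (S.adj (by omega) (by omega)) (S.adj (by omega) (by omega))
    (S.nadj (by omega) (by omega)) (S.nadj (by omega) (by omega))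
    (S.nadj (by omega) (by omega)) (S.nadj (by omega) (by omega))
    (S.adj (by omega) (by omega)) (S.nadj (by omega) (by omega))
    (S.nadj (by omega) (by omega)) (S.adj (by omega) (by omega))
    (S.adj (by omega) (by omega)) (S.nadj (by omega) (by omega))
  have hall : ∀ x ∈ ({c (j - T + 1), c (j - T + 2), c (j - T + 3), c (j' + N)} : Set ℝ),
      b j' - 1 < x ∧ x ≤ b j' + 1 := by
    intro x hx
    simp only [Set.mem_insert_iff, Set.mem_singleton_iff] at hx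
    rcases hx with rfl | rfl | rfl | rfl
    · exact r1
    · exact r2
    · exact r3
    · exact r4
  intro x hx y hy
  have h1 := hall x hx
  have h2 := hall y hy
  linarith [h1.1, h1.2, h2.1, h2.2]

lemma Sys.row (S : Sys N T K t b c) {i i' : ℤ} (hδ : i + 3 ≤ i') (hlo : -K ≤ i - N)
    (hhi : i' + T - 1 ≤ K) : c i < c i' := by
  have := S.flip.col (j := -i') (j' := -i) (by omega) (by omega) (by omega)
  simp only [neg_neg] at this
  linarith

/-- zone (c) -/
lemma Sys.zc (S : Sys N T K t b c) {i j : ℤ} (hr : -K + 2 * T ≤ i ∧ i ≤ K - 2 * T ∧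
    -K + 2 * T ≤ j ∧ j ≤ K - 2 * T) (h : -N ≤ j - i ∧ j - i < N) :
    -1 ≤ b j - c i ∧ b j - c i < 1 := by
  have hN := S.hN
  have hT := S.hT
  have h1 : E t (b j - c i) := S.adj (by omega) (by omega)
  rcases h1 with h1 | h1
  · exact h1
  · exfalso
    have h2 : ¬ E t (b j - c (j - N - 2)) := S.nadj (by omega) (by omega)
    have h3 := S.row (i := j - N - 2) (i' := i) (by omega) (by omega) (by omega)
    exact h2 (Or.inr (by linarith))

lemma Sys.za (S : Sys N T K t b c) {i j : ℤ} (hr : -K + 3 * T ≤ i ∧ i ≤ K - 3 * T ∧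
    -K + 3 * T ≤ j ∧ j ≤ K - 3 * T) (h : T ≤ j - i) : t ≤ b j - c i := by
  have hN := S.hN
  have hT := S.hT
  have h1 : E t (b j - c i) := S.adj (by omega) (by omega)
  rcases h1 with h1 | h1
  · exfalso
    have h2 : ¬ E t (b j - c (j - T + 3)) := S.nadj (by omega) (by omega)
    have h3 := S.row (i := i) (i' := j - T + 3) (by omega) (by omega) (by omega)
    have h4 : b j - c (j - T + 3) < -1 := by
      by_contra h5
      push Not at h5
      exact h2 (Or.inl ⟨h5, by linarith [h1.2]⟩)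
    have h5 := S.row (i := j - T + 3) (i' := j - N + 3) (by omega) (by omega) (by omega)
    have h6 := (S.zc (i := j - N + 3) (j := j) (by omega) (by omega)).1
    linarith
  · exact h1

lemma Sys.zd (S : Sys N T K t b c) {i j : ℤ} (hr : -K + 3 * T ≤ i ∧ i ≤ K - 3 * T ∧
    -K + 3 * T ≤ j ∧ j ≤ K - 3 * T) (h : j - i < -N) : b j - c i < -1 := by
  have hN := S.hN
  have hT := S.hT
  have h1 : ¬ E t (b j - c i) := S.nadj (by omega) (by omega)
  by_contra h2
  push Not at h2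
  have h3 : 1 ≤ b j - c i := by
    by_contra h4
    push Not at h4
    exact h1 (Or.inl ⟨h2, h4⟩)
  have h5 := S.row (i := j + N - 2) (i' := i) (by omega) (by omega) (by omega)
  have h6 := (S.zc (i := j + N - 2) (j := j) (by omega) (by omega)).2
  linarith

lemma Sys.zb (S : Sys N T K t b c) {i j : ℤ} (hr : -K + 3 * T ≤ i ∧ i ≤ K - 3 * T ∧
    -K + 3 * T ≤ j ∧ j ≤ K - 3 * T) (h : N ≤ j - i ∧ j - i < T) :
    1 ≤ b j - c i ∧ b j - c i < t := by
  have hN := S.hN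
  have hT := S.hT
  have h1 : ¬ E t (b j - c i) := S.nadj (by omega) (by omega)
  have h2 : -1 ≤ b j - c i := by
    have h5 := S.row (i := i) (i' := j - N + 3) (by omega) (by omega) (by omega)
    have h6 := (S.zc (i := j - N + 3) (j := j) (by omega) (by omega)).1
    linarith
  unfold E at h1
  push Not at h1
  exact ⟨h1.1 h2, h1.2⟩

lemma Sys.F1 (S : Sys N T K t b c) {i : ℤ} (h1 : -K + 5 * T ≤ i) (h2 : i ≤ K - 5 * T) :
    2 < c (i + (2 * N + 1)) - c i := by
  have hN := S.hN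
  have hT := S.hT
  have a := (S.zb (i := i) (j := i + N) (by omega) (by omega)).1
  have b' := S.zd (i := i + (2 * N + 1)) (j := i + N) (by omega) (by omega)
  linarith

lemma Sys.F2 (S : Sys N T K t b c) {i : ℤ} (h1 : -K + 5 * T ≤ i) (h2 : i ≤ K - 5 * T) :
    c (i + (T - N - 1)) - c i < t - 1 := by
  have hN := S.hN
  have hT := S.hT
  have a := (S.zb (i := i) (j := i + T - 1) (by omega) (by omega)).2
  have b' := (S.zb (i := i + (T - N - 1)) (j := i + T - 1) (by omega) (by omega)).1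
  linarith

lemma Sys.F3 (S : Sys N T K t b c) {i : ℤ} (h1 : -K + 5 * T ≤ i) (h2 : i ≤ K - 5 * T) :
    c (i + (2 * N - 1)) - c i < 2 := by
  have hN := S.hN
  have hT := S.hT
  have a := (S.zc (i := i) (j := i + N - 1) (by omega) (by omega)).2
  have b' := (S.zc (i := i + (2 * N - 1)) (j := i + N - 1) (by omega) (by omega)).1
  linarith

lemma Sys.F4 (S : Sys N T K t b c) {i : ℤ} (h1 : -K + 5 * T ≤ i) (h2 : i ≤ K - 5 * T) :
    t - 1 < c (i + (T - N + 1)) - c i := by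
  have hN := S.hN
  have hT := S.hT
  have a := S.za (i := i) (j := i + T) (by omega) (by omega)
  have b' := (S.zc (i := i + (T - N + 1)) (j := i + T) (by omega) (by omega)).2
  linarith

lemma iter_lt (f : ℤ → ℝ) (d : ℤ) (hd : 0 ≤ d) (s : ℝ) (m : ℕ)
    (h : ∀ i, 0 ≤ i → i ≤ m * d → f (i + d) - f i < s) : 
    ∀ k : ℕ, 1 ≤ k → k ≤ m → f (k * d) - f 0 < k * s := by
  intro k
  induction k with
  | zero => intro h1; omega
  | succ k ih =>
    intro _ h2
    have hk : ((k : ℤ)) * d ≤ m * d := by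
      apply mul_le_mul_of_nonneg_right _ hd
      omega
    have hk0 : 0 ≤ (k : ℤ) * d := by positivity
    have h3 := h (k * d) hk0 hk
    have e : ((k + 1 : ℕ) : ℤ) * d = k * d + d := by push_cast; ring
    rw [e]
    rcases Nat.eq_zero_or_pos k with h0 | h0
    · subst h0
      simp only [Nat.cast_zero, zero_mul, zero_add] at h3 ⊢
      simpa using h3
    · have h4 := ih h0 (by omega)
      push_cast
      linarith

lemma iter_gt (f : ℤ → ℝ) (d : ℤ) (hd : 0 ≤ d) (s : ℝ) (m : ℕ)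
    (h : ∀ i, 0 ≤ i → i ≤ m * d → s < f (i + d) - f i) : 
    ∀ k : ℕ, 1 ≤ k → k ≤ m → k * s < f (k * d) - f 0 := by
  intro k h1 h2
  have := iter_lt (fun i => - f i) d hd (-s) m (by intro i h3 h4; have := h i h3 h4; linarith) k h1 h2
  linarith

/-- First inequality. -/
lemma Sys.ineq1 (S : Sys N T K t b c) (hK : (2 * N + 1) * (T - N - 1) + 6 * T ≤ K) :
    2 * ((T - N - 1 : ℤ) : ℝ) < ((2 * N + 1 : ℤ) : ℝ) * (t - 1) := by
  have hN := S.hN
  have hT := S.hT
  obtain ⟨p, hp⟩ := Int.eq_ofNat_of_zero_le (show 0 ≤ T - N - 1 by omega)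
  obtain ⟨q, hq⟩ := Int.eq_ofNat_of_zero_le (show 0 ≤ 2 * N + 1 by omega)
  have e : (q : ℤ) * (p : ℤ) = (2 * N + 1) * (T - N - 1) := by rw [hp, hq]
  have hnn : 0 ≤ (2 * N + 1) * (T - N - 1) := by
    apply mul_nonneg <;> omega
  have A := iter_gt c (2 * N + 1) (by omega) 2 p (by
    intro i h1 h2
    have e2 : (p : ℤ) * (2 * N + 1) = (2 * N + 1) * (T - N - 1) := by rw [hp]; ring
    rw [e2] at h2
    exact S.F1 (by omega) (by omega)) p (by omega) le_rfl
  have B := iter_lt c (T - N - 1) (by omega) (t - 1) q (by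
    intro i h1 h2
    have e2 : (q : ℤ) * (T - N - 1) = (2 * N + 1) * (T - N - 1) := by rw [hq]
    rw [e2] at h2
    exact S.F2 (by omega) (by omega)) q (by omega) le_rfl
  have e3 : (p : ℤ) * (2 * N + 1) = (q : ℤ) * (T - N - 1) := by rw [hp, hq]; ring
  rw [e3] at A
  rw [hp, hq]
  push_cast
  linarith

/-- Second inequality. -/
lemma Sys.ineq2 (S : Sys N T K t b c) (hK : (2 * N - 1) * (T - N + 1) + 6 * T ≤ K) :
    ((2 * N - 1 : ℤ) : ℝ) * (t - 1) < 2 * ((T - N + 1 : ℤ) : ℝ) := by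
  have hN := S.hN
  have hT := S.hT
  obtain ⟨p, hp⟩ := Int.eq_ofNat_of_zero_le (show 0 ≤ T - N + 1 by omega)
  obtain ⟨q, hq⟩ := Int.eq_ofNat_of_zero_le (show 0 ≤ 2 * N - 1 by omega)
  have hnn : 0 ≤ (2 * N - 1) * (T - N + 1) := by
    apply mul_nonneg <;> omega
  have A := iter_lt c (2 * N - 1) (by omega) 2 p (by
    intro i h1 h2
    have e2 : (p : ℤ) * (2 * N - 1) = (2 * N - 1) * (T - N + 1) := by rw [hp]; ring
    rw [e2] at h2
    exact S.F3 (by omega) (by omega)) p (by omega) le_rfl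
  have B := iter_gt c (T - N + 1) (by omega) (t - 1) q (by
    intro i h1 h2
    have e2 : (q : ℤ) * (T - N + 1) = (2 * N - 1) * (T - N + 1) := by rw [hq]
    rw [e2] at h2
    exact S.F4 (by omega) (by omega)) q (by omega) le_rfl
  have e3 : (p : ℤ) * (2 * N - 1) = (q : ℤ) * (T - N + 1) := by rw [hp, hq]; ring
  rw [e3] at A
  rw [hp, hq]
  push_cast
  linarith

end Pool.Agent.Q258.Thresh
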