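import Pool.Agent.Q258.Thresh

namespace Pool.Agent.Q258.Thresh

/-- `G` is a `(-1,1,t)`-threshold graph. -/
def InC (t : ℝ) {V : Type*} (G : SimpleGraph V) : Prop :=
  ∃ r : V → ℝ, ∀ v w : V, v ≠ w →
    (G.Adj v w ↔ (-1 ≤ r v + r w ∧ r v + r w < 1) ∨ t ≤ r v + r w)

/-- the ranks of our graph -/
noncomputable def rho (N K : ℕ) (x : ℕ) : ℝ :=
  if x < 2 * K + 1 then -(((x : ℝ) - K) / N) else ((x : ℝ) - (2 * K + 1) - K) / N

/-- the graph -/
noncomputable def Gr (t : ℝ) (N K : ℕ) : SimpleGraph (Fin (2 * (2 * K + 1))) where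
  Adj v w := v ≠ w ∧ E t (rho N K v + rho N K w)
  symm := ⟨fun v w h => ⟨h.1.symm, by rw [add_comm]; exact h.2⟩⟩
  loopless := ⟨fun v h => h.1 rfl⟩

lemma gr_inC (t : ℝ) (N K : ℕ) : InC t (Gr t N K) := by
  refine ⟨fun v => rho N K v, fun v w hvw => ?_⟩
  constructor
  · intro h
    exact h.2
  · intro h
    exact ⟨hvw, h⟩

lemma sys_of_inC {t τ : ℝ} {N K T : ℕ} (hN : 2 ≤ N) (hT : N + 3 ≤ T) (hτ : 1 < τ)
    (hTt : T = ⌈t * N⌉₊) (ht : 0 < t) (h : InC τ (Gr t N K)) :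
    ∃ b c : ℤ → ℝ, Sys N T K τ b c := by
  obtain ⟨r, hr⟩ := h
  let f : ℕ → ℝ := fun x => if h : x < 2 * (2 * K + 1) then r ⟨x, h⟩ else 0
  refine ⟨fun j => f (j + K + (2 * K + 1)).toNat, fun i => - f (i + K).toNat, ?_⟩
  refine ⟨by omega, by omega, hτ, ?_⟩
  intro i j h1 h2 h3 h4
  have hv : (i + K).toNat < 2 * (2 * K + 1) := by omega
  have hw : (j + K + (2 * K + 1)).toNat < 2 * (2 * K + 1) := by omega
  have hne : (⟨(i + K).toNat, hv⟩ : Fin (2 * (2 * K + 1))) ≠ ⟨(j + K + (2 * K + 1)).toNat, hw⟩ := by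
    intro h
    have := congrArg Fin.val h
    simp only at this
    omega
  have key := hr _ _ hne
  have e1 : f (j + K + (2 * K + 1)).toNat = r ⟨(j + K + (2 * K + 1)).toNat, hw⟩ := dif_pos hw
  have e2 : f (i + K).toNat = r ⟨(i + K).toNat, hv⟩ := dif_pos hv
  have hN0 : (0 : ℝ) < N := by
    have : 0 < N := by omega
    exact_mod_cast this
  have e3 : rho N K (i + K).toNat + rho N K (j + K + (2 * K + 1)).toNat = ((j - i : ℤ) : ℝ) / N := by
    have a1 : ((i + K).toNat : ℝ) = (i : ℝ) + K := by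
      have : (((i + K).toNat : ℤ) : ℝ) = ((i + K : ℤ) : ℝ) := by
        congr 1
        omega
      push_cast at this
      exact_mod_cast this
    have a2 : ((j + K + (2 * K + 1)).toNat : ℝ) = (j : ℝ) + K + (2 * K + 1) := by
      have : (((j + K + (2 * K + 1)).toNat : ℤ) : ℝ) = ((j + K + (2 * K + 1) : ℤ) : ℝ) := by
        congr 1
        omega
      push_cast at this
      exact_mod_cast this
    unfold rho
    rw [if_pos (by omega), if_neg (by omega), a1, a2]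
    push_cast
    field_simp
    ring
  have e4 : (Gr t N K).Adj ⟨(i + K).toNat, hv⟩ ⟨(j + K + (2 * K + 1)).toNat, hw⟩ ↔
      E t (((j - i : ℤ) : ℝ) / N) := by
    rw [← e3]
    exact ⟨fun h => h.2, fun h => ⟨hne, h⟩⟩
  have e5 : E t (((j - i : ℤ) : ℝ) / N) ↔ ((-(N : ℤ) ≤ j - i ∧ j - i < N) ∨ (T : ℤ) ≤ j - i) := by
    unfold E
    rw [le_div_iff₀ hN0, div_lt_iff₀ hN0, le_div_iff₀ hN0]
    have b1 : (-1 * (N : ℝ) ≤ ((j - i : ℤ) : ℝ)) ↔ -(N : ℤ) ≤ j - i := by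
      rw [show (-1 * (N : ℝ)) = ((-(N : ℤ) : ℤ) : ℝ) by push_cast; ring]
      exact Int.cast_le
    have b2 : (((j - i : ℤ) : ℝ) < 1 * (N : ℝ)) ↔ j - i < (N : ℤ) := by
      rw [show (1 * (N : ℝ)) = (((N : ℤ) : ℤ) : ℝ) by push_cast; ring]
      exact Int.cast_lt
    have b3 : (t * (N : ℝ) ≤ ((j - i : ℤ) : ℝ)) ↔ (T : ℤ) ≤ j - i := by
      have c1 : (T : ℤ) = ⌈t * N⌉ := by
        rw [hTt]
        exact Int.natCast_ceil_eq_ceil (by positivity)
      rw [c1]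
      exact Int.ceil_le.symm
    rw [b1, b2, b3]
  have e6 : f (j + K + (2 * K + 1)).toNat - - f (i + K).toNat =
      r ⟨(i + K).toNat, hv⟩ + r ⟨(j + K + (2 * K + 1)).toNat, hw⟩ := by
    rw [e1, e2]; ring
  show _ ↔ E τ (f (j + K + (2 * K + 1)).toNat - - f (i + K).toNat)
  rw [e6, ← e5, ← e4]
  exact key

/-- **Main theorem.** For distinct `t, τ > 1` there is a finite graph that is a
`(-1,1,t)`-threshold graph but not a `(-1,1,τ)`-threshold graph. -/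
theorem main {t τ : ℝ} (ht : 1 < t) (hτ : 1 < τ) (hne : t ≠ τ) :
    ∃ (n : ℕ) (G : SimpleGraph (Fin n)), InC t G ∧ ¬ InC τ G := by
  -- choose N large
  obtain ⟨N, hN1⟩ := exists_nat_gt (max (3 / (t - 1)) (max 2 ((t + τ + 3) / |t - τ|)))
  have hNa : 3 / (t - 1) < N := lt_of_le_of_lt (le_max_left _ _) hN1
  have hNb : (2 : ℝ) < N := lt_of_le_of_lt ((le_max_left _ _).trans (le_max_right _ _)) hN1
  have hNc : (t + τ + 3) / |t - τ| < N :=
    lt_of_le_of_lt ((le_max_right _ _).trans (le_max_right _ _)) hN1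
  have habs : 0 < |t - τ| := abs_pos.2 (sub_ne_zero.2 hne)
  rw [div_lt_iff₀ (by linarith)] at hNa
  rw [div_lt_iff₀ habs] at hNc
  have hN2 : 2 ≤ N := by
    have : (2 : ℕ) < N := by exact_mod_cast hNb
    omega
  have hpos : 0 ≤ t * N := by positivity
  have hT1 : t * N ≤ (⌈t * N⌉₊ : ℝ) := Nat.le_ceil _
  have hT2 : (⌈t * N⌉₊ : ℝ) < t * N + 1 := Nat.ceil_lt_add_one hpos
  obtain ⟨T, hT⟩ : ∃ T : ℕ, T = ⌈t * N⌉₊ := ⟨_, rfl⟩
  rw [← hT] at hT1 hT2
  have hT3 : N + 3 ≤ T := by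
    have : (N : ℝ) + 3 ≤ T := by nlinarith
    exact_mod_cast this
  refine ⟨_, Gr t N ((2 * N + 1) * (T + 1) + 6 * T), gr_inC _ _ _, ?_⟩
  intro hcon
  obtain ⟨b, c, S⟩ := sys_of_inC hN2 hT3 hτ hT (by linarith) hcon
  have hTN : (0 : ℤ) ≤ (T : ℤ) - N := by omega
  have I1 := S.ineq1 (by
    push_cast
    nlinarith)
  have I2 := S.ineq2 (by
    push_cast
    nlinarith)
  push_cast at I1 I2
  rcases lt_or_gt_of_ne hne with h | h
  · rw [abs_of_neg (by linarith)] at hNc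
    nlinarith
  · rw [abs_of_pos (by linarith)] at hNc
    nlinarith

end Pool.Agent.Q258.Thresh
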