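import Pool.Agent.Q258.ThreshMain
import Mathlib.Algebra.Ring.Parity
import Mathlib.Data.Fin.VecNotation
import Mathlib.Algebra.BigOperators.Fin
import Mathlib.Data.Fintype.BigOperators
import Mathlib.Data.Fintype.Card

namespace Pool.Agent.Q258.Thresh

/-- Parity form of the definition for three thresholds. -/
lemma odd_iff {t x : ℝ} (ht : 1 < t) :
    Odd (Finset.univ.filter (fun i : Fin 3 => (![-1, 1, t] : Fin 3 → ℝ) i ≤ x)).card ↔
      (-1 ≤ x ∧ x < 1) ∨ t ≤ x := by
  have hcard : (Finset.univ.filter (fun i : Fin 3 => (![-1, 1, t] : Fin 3 → ℝ) i ≤ x)).card =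
      (if -1 ≤ x then 1 else 0) + (if 1 ≤ x then 1 else 0) + (if t ≤ x then 1 else 0) := by
    rw [Finset.card_filter, Fin.sum_univ_three]
    congr 1
  rw [hcard]
  by_cases h1 : -1 ≤ x <;> by_cases h2 : 1 ≤ x <;> by_cases h3 : t ≤ x <;>
    simp only [h1, h2, h3, if_true, if_false]
  · simp only [true_and, not_lt.2 h2, or_true, iff_true]; decide
  · simp only [true_and, not_lt.2 h2, or_false, iff_false]; decide
  · exfalso; linarith
  · simp only [true_and, lt_of_not_ge h2, or_false, iff_true]; decide
  · exfalso; linarith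
  · exfalso; linarith
  · exfalso; linarith
  · simp only [false_and, or_false, iff_false]; decide

end Pool.Agent.Q258.Thresh
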