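import Mathlib

/-!
# Limits of zonotopes: convexity and symmetry; Minkowski sums of segments as parametrised sets
-/

set_option autoImplicit false

open scoped Pointwise

namespace Pool.Agent.Q258.ZonoidAux

variable {V : Type*} [NormedAddCommGroup V] [NormedSpace ℝ V]

theorem mem_segment_neg (v x : V) : x ∈ segment ℝ (-v) v ↔ ∃ t ∈ Set.Icc (-1 : ℝ) 1, x = t • v := by
  constructor
  · rintro ⟨a, b, ha, hb, hab, rfl⟩
    refine ⟨b - a, ⟨by linarith, by linarith⟩, ?_⟩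
    rw [sub_smul, smul_neg]; abel
  · rintro ⟨t, ⟨h1, h2⟩, rfl⟩
    refine ⟨(1 - t) / 2, (1 + t) / 2, by linarith, by linarith, by ring, ?_⟩
    rw [smul_neg, ← neg_smul, ← add_smul]
    congr 1; ring

theorem mem_sum_segment {m : ℕ} (v : Fin m → V) (x : V) :
    x ∈ (∑ i, segment ℝ (-v i) (v i)) ↔
      ∃ t : Fin m → ℝ, (∀ j, t j ∈ Set.Icc (-1 : ℝ) 1) ∧ x = ∑ j, t j • v j := by
  rw [Set.mem_fintype_sum]
  constructor
  · rintro ⟨g, hg, rfl⟩
    choose t ht hgt using fun i => (mem_segment_neg (v i) (g i)).1 (hg i)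
    exact ⟨t, ht, Finset.sum_congr rfl fun i _ => hgt i⟩
  · rintro ⟨t, ht, rfl⟩
    exact ⟨fun i => t i • v i, fun i => (mem_segment_neg _ _).2 ⟨t i, ht i, rfl⟩, rfl⟩

theorem zero_mem_sum {m : ℕ} (v : Fin m → V) : (0 : V) ∈ (∑ i, segment ℝ (-v i) (v i)) := by
  rw [mem_sum_segment]
  exact ⟨fun _ => 0, fun _ => by simp, by simp⟩

theorem neg_mem_sum {m : ℕ} (v : Fin m → V) {x : V} (hx : x ∈ (∑ i, segment ℝ (-v i) (v i))) :
    -x ∈ (∑ i, segment ℝ (-v i) (v i)) := by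
  rw [mem_sum_segment] at hx ⊢
  obtain ⟨t, ht, rfl⟩ := hx
  refine ⟨fun j => -t j, fun j => ⟨by linarith [(ht j).2], by linarith [(ht j).1]⟩, ?_⟩
  simp [Finset.sum_neg_distrib]

theorem convex_sum {m : ℕ} (v : Fin m → V) : Convex ℝ (∑ i, segment ℝ (-v i) (v i)) := by
  intro x hx y hy a b ha hb hab
  rw [mem_sum_segment] at hx hy ⊢
  obtain ⟨s, hs, rfl⟩ := hx
  obtain ⟨t, ht, rfl⟩ := hy
  refine ⟨fun j => a * s j + b * t j, fun j => ?_, ?_⟩
  · have := convex_Icc (-1 : ℝ) 1 (hs j) (ht j) ha hb hab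
    simpa using this
  · simp [Finset.smul_sum, ← Finset.sum_add_distrib, add_smul, mul_smul]

theorem bounded_sum {m : ℕ} (v : Fin m → V) :
    Bornology.IsBounded (∑ i, segment ℝ (-v i) (v i)) := by
  rw [Metric.isBounded_iff_subset_closedBall 0]
  refine ⟨∑ j, ‖v j‖, fun x hx => ?_⟩
  rw [mem_sum_segment] at hx
  obtain ⟨t, ht, rfl⟩ := hx
  rw [mem_closedBall_zero_iff]
  refine (norm_sum_le _ _).trans (Finset.sum_le_sum fun j _ => ?_)
  rw [norm_smul]
  have : ‖t j‖ ≤ 1 := by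
    rw [Real.norm_eq_abs, abs_le]; exact (ht j)
  nlinarith [norm_nonneg (v j)]

variable {K : Set V}

theorem edist_ne_top {m : ℕ} (hb : Bornology.IsBounded K) (hne : K.Nonempty) (v : Fin m → V) :
    Metric.hausdorffEDist K (∑ i, segment ℝ (-v i) (v i)) ≠ ⊤ :=
  Metric.hausdorffEDist_ne_top_of_nonempty_of_bounded hne ⟨0, zero_mem_sum v⟩ hb (bounded_sum v)

/-- points of the limit are close to the zonotope and conversely -/
theorem close (hb : Bornology.IsBounded K) (hne : K.Nonempty)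
    (hlim : ∀ δ : ℝ, 0 < δ → ∃ m : ℕ, ∃ v : Fin m → V,
      Metric.hausdorffDist K (∑ i, segment ℝ (-v i) (v i)) < δ) {δ : ℝ} (hδ : 0 < δ) :
    ∃ m : ℕ, ∃ v : Fin m → V,
      (∀ x ∈ K, ∃ y ∈ (∑ i, segment ℝ (-v i) (v i)), dist x y < δ) ∧
      (∀ y ∈ (∑ i, segment ℝ (-v i) (v i)), ∃ x ∈ K, dist y x < δ) := by
  obtain ⟨m, v, hv⟩ := hlim δ hδ
  have ht := edist_ne_top hb hne v
  refine ⟨m, v, fun x hx => Metric.exists_dist_lt_of_hausdorffDist_lt hx hv ht, fun y hy => ?_⟩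
  obtain ⟨x, hx, h⟩ := Metric.exists_dist_lt_of_hausdorffDist_lt' hy hv ht
  exact ⟨x, hx, by rwa [dist_comm]⟩

theorem neg_mem (hK : IsClosed K) (hb : Bornology.IsBounded K) (hne : K.Nonempty)
    (hlim : ∀ δ : ℝ, 0 < δ → ∃ m : ℕ, ∃ v : Fin m → V,
      Metric.hausdorffDist K (∑ i, segment ℝ (-v i) (v i)) < δ) {x : V} (hx : x ∈ K) : -x ∈ K := by
  rw [← hK.closure_eq, Metric.mem_closure_iff]
  intro ε hε
  obtain ⟨m, v, h1, h2⟩ := close hb hne hlim (half_pos hε)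
  obtain ⟨y, hy, hxy⟩ := h1 x hx
  obtain ⟨z, hz, hyz⟩ := h2 (-y) (neg_mem_sum v hy)
  refine ⟨z, hz, ?_⟩
  calc dist (-x) z ≤ dist (-x) (-y) + dist (-y) z := dist_triangle _ _ _
    _ < ε / 2 + ε / 2 := by
        have : dist (-x) (-y) = dist x y := dist_neg_neg x y
        linarith
    _ = ε := by ring

theorem convex_limit (hK : IsClosed K) (hb : Bornology.IsBounded K) (hne : K.Nonempty)
    (hlim : ∀ δ : ℝ, 0 < δ → ∃ m : ℕ, ∃ v : Fin m → V,
      Metric.hausdorffDist K (∑ i, segment ℝ (-v i) (v i)) < δ) : Convex ℝ K := by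
  intro x hx y hy a b ha hb' hab
  rw [← hK.closure_eq, Metric.mem_closure_iff]
  intro ε hε
  obtain ⟨m, v, h1, h2⟩ := close hb hne hlim (half_pos hε)
  obtain ⟨x', hx', hxx⟩ := h1 x hx
  obtain ⟨y', hy', hyy⟩ := h1 y hy
  obtain ⟨z, hz, hyz⟩ := h2 _ (convex_sum v hx' hy' ha hb' hab)
  refine ⟨z, hz, ?_⟩
  have h3 : dist (a • x + b • y) (a • x' + b • y') ≤ ε / 2 := by
    calc dist (a • x + b • y) (a • x' + b • y') ≤ dist (a • x) (a • x') + dist (b • y) (b • y') :=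
          dist_add_add_le _ _ _ _
      _ = a * dist x x' + b * dist y y' := by
          rw [dist_smul₀, dist_smul₀, Real.norm_of_nonneg ha, Real.norm_of_nonneg hb']
      _ ≤ a * (ε / 2) + b * (ε / 2) := by
          gcongr
      _ = ε / 2 := by rw [← add_mul, hab, one_mul]
  calc dist (a • x + b • y) z ≤ dist (a • x + b • y) (a • x' + b • y') + dist (a • x' + b • y') z :=
        dist_triangle _ _ _
    _ < ε / 2 + ε / 2 := by linarith
    _ = ε := by ring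

end Pool.Agent.Q258.ZonoidAux
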